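import Mathlib

/-!
The choice of the parameters.
-/

set_option autoImplicit false

namespace Pool.Agent.W906.SE

open Finset

theorem exists_scale (c1 : ℝ) (h0 : 0 < c1) (h1 : c1 ≤ 1 / 2) (q : ℕ) (hq : 1 ≤ q) (n : ℕ)
    (Rr β : ℝ) (hRr : 1 ≤ Rr) (hβ : 0 < β) (hqβ : 8 / β ≤ q) (hn : 1 ≤ n) :
    ∃ i : ℕ, (c1 ^ q) ^ (2 ^ i) * n ≤ Rr ∧ c1 ^ 2 * (n : ℝ) ^ (-(β / 2)) ≤ c1 ^ (2 * 2 ^ i) := by
  have hnr : (1 : ℝ) ≤ n := by exact_mod_cast hn
  have hc1 : c1 ≤ 1 := by linarith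
  have hnb : (n : ℝ) ^ (-(β / 2)) ≤ 1 := by
    rw [Real.rpow_neg (by linarith)]
    apply inv_le_one_of_one_le₀
    exact Real.one_le_rpow hnr (by linarith)
  let P : ℕ → Prop := fun i => (c1 ^ q) ^ (2 ^ i) * (n : ℝ) ≤ Rr
  have hP : ∃ i, P i := by
    refine ⟨n, ?_⟩
    have e1 : (c1 ^ q) ≤ 1 / 2 := by
      calc c1 ^ q ≤ c1 ^ 1 := pow_le_pow_of_le_one h0.le hc1 hq
        _ ≤ 1 / 2 := by simpa using h1
    have e2 : (c1 ^ q) ^ (2 ^ n) ≤ (1 / 2) ^ (2 ^ n) :=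
      pow_le_pow_left₀ (by positivity) e1 _
    have e3 : ((1 : ℝ) / 2) ^ (2 ^ n) ≤ (1 / 2) ^ n :=
      pow_le_pow_of_le_one (by norm_num) (by norm_num) (Nat.lt_two_pow_self).le
    have e4 : (n : ℝ) ≤ 2 ^ n := by exact_mod_cast (Nat.lt_two_pow_self).le
    have e5 : ((1 : ℝ) / 2) ^ n * 2 ^ n = 1 := by
      rw [← mul_pow]; norm_num
    calc (c1 ^ q) ^ (2 ^ n) * (n : ℝ) ≤ (1 / 2) ^ n * 2 ^ n :=
          mul_le_mul (e2.trans e3) e4 (by linarith) (by positivity)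
      _ = 1 := e5
      _ ≤ Rr := hRr
  classical
  have hspec := Nat.find_spec hP
  refine ⟨Nat.find hP, hspec, ?_⟩
  rcases Nat.eq_zero_or_pos (Nat.find hP) with h | h
  · rw [h]
    have : 0 ≤ c1 ^ 2 := by positivity
    simp only [pow_zero, mul_one]
    nlinarith
  · obtain ⟨j, hj⟩ : ∃ j, Nat.find hP = j + 1 := ⟨Nat.find hP - 1, by omega⟩
    have hnot : ¬ P j := Nat.find_min hP (by omega)
    simp only [P, not_le] at hnot
    rw [hj]
    set X := c1 ^ (2 * 2 ^ (j + 1)) with hX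
    have hX0 : 0 < X := by positivity
    have h2 : (1 : ℝ) / n < c1 ^ (q * 2 ^ j) := by
      rw [div_lt_iff₀ (by linarith), pow_mul]
      linarith
    have h3 : X ^ q = (c1 ^ (q * 2 ^ j)) ^ 4 := by
      rw [hX, ← pow_mul, ← pow_mul]
      congr 1
      ring
    have h4 : ((1 : ℝ) / n) ^ 4 ≤ X ^ q := by
      rw [h3]
      exact pow_le_pow_left₀ (by positivity) h2.le 4
    have hqr : (0 : ℝ) < q := by exact_mod_cast (lt_of_lt_of_le one_pos hq)
    have h5 : (n : ℝ) ^ (-(4 / (q : ℝ))) ≤ X := by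
      have e1 : X = (X ^ q) ^ ((1 : ℝ) / q) := by
        rw [← Real.rpow_natCast, ← Real.rpow_mul hX0.le, mul_one_div_cancel hqr.ne', Real.rpow_one]
      rw [e1]
      have e2 : (n : ℝ) ^ (-(4 / (q : ℝ))) = (((1 : ℝ) / n) ^ 4) ^ ((1 : ℝ) / q) := by
        rw [one_div, inv_pow, ← Real.rpow_natCast, ← Real.rpow_neg (by linarith),
          ← Real.rpow_mul (by linarith)]
        congr 1
        push_cast
        ring
      rw [e2]
      exact Real.rpow_le_rpow (by positivity) h4 (by positivity)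
    have h6 : (n : ℝ) ^ (-(β / 2)) ≤ (n : ℝ) ^ (-(4 / (q : ℝ))) := by
      apply Real.rpow_le_rpow_of_exponent_le hnr
      have : 4 / (q : ℝ) ≤ β / 2 := by
        rw [div_le_iff₀ hqr]
        rw [div_le_iff₀ hβ] at hqβ
        nlinarith
      linarith
    have h7 : c1 ^ 2 ≤ 1 := pow_le_one₀ h0.le hc1
    have h8 : 0 ≤ (n : ℝ) ^ (-(β / 2)) := by positivity
    nlinarith

theorem exists_params (d n : ℕ) (hd : 1 ≤ d) (hn : 1 ≤ n) (c β : ℝ) (hc : 0 < c) (hc1 : c ≤ 1)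
    (hβ : 0 < β) (hβ1 : β ≤ 1) (D : ℕ)
    (hD : (2 * d / (c * β)) ^ (300 / β) * (n : ℝ) ^ β ≤ D) :
    ∃ (κ Rr c0 : ℝ) (i k N J : ℕ), 0 < κ ∧ κ ≤ 1 ∧ 0 < Rr ∧ 0 < c0 ∧ c0 ≤ 1 ∧
      κ ^ (2 ^ i) * n ≤ Rr ∧
      1 ≤ (k : ℝ) * (c0 / 2 * ((c0 ^ 2 / (32 * d)) ^ (2 * 2 ^ i) * κ ^ 2 / (128 * Rr))) ∧
      k + 3 ≤ D ∧ 1 ≤ N ∧ (n : ℝ) ≤ Rr ^ J ∧
      J * (c0 + 2 * (1 - κ ^ 2 / 16 / 2) ^ N) ≤ c / 2 ∧
      (c * β / (2 * d)) ^ (1500 / β ^ 2) ≤ (c0 / (8 * N ^ 2)) ^ J * (c / 2) := by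
  have hnr : (1 : ℝ) ≤ n := by exact_mod_cast hn
  have hdr : (1 : ℝ) ≤ d := by exact_mod_cast hd
  have hd0 : (0 : ℝ) < d := by linarith
  set Y : ℝ := 2 * d / (c * β) with hY
  have hcβ : c * β ≤ 1 := mul_le_one₀ hc1 hβ.le hβ1
  have hcβ0 : 0 < c * β := by positivity
  have hY2 : 2 ≤ Y := by
    rw [hY, le_div_iff₀ hcβ0]
    nlinarith
  have hY0 : 0 < Y := by linarith
  have hY1 : 1 ≤ Y := by linarith
  have hyY : c * β / (2 * d) = Y⁻¹ := by rw [hY, inv_div]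
  -- `J`
  set J : ℕ := ⌈2 / β⌉₊ with hJ
  have hJ1 : 2 / β ≤ J := Nat.le_ceil _
  have hJ2 : (J : ℝ) ≤ 3 / β := by
    have h1 : (J : ℝ) < 2 / β + 1 := Nat.ceil_lt_add_one (by positivity)
    have h2 : (1 : ℝ) ≤ 1 / β := by rw [le_div_iff₀ hβ]; linarith
    have h3 : 2 / β + 1 / β = 3 / β := by ring
    linarith
  have hJ0 : (2 : ℝ) ≤ J := by
    have : (2 : ℝ) ≤ 2 / β := by rw [le_div_iff₀ hβ]; linarith
    linarith
  -- `c0`
  set c0 : ℝ := c / (4 * J) with hc0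
  have hc00 : 0 < c0 := by positivity
  have hc01 : c0 ≤ 1 := by
    rw [hc0, div_le_one (by positivity)]
    linarith
  have hc0Y : (Y ^ 4)⁻¹ ≤ c0 := by
    have h1 : c * β / 12 ≤ c0 := by
      rw [hc0, le_div_iff₀ (by positivity)]
      have h2 : (J : ℝ) * β ≤ 3 := by rwa [le_div_iff₀ hβ] at hJ2
      have h3 : c * β / 12 * (4 * J) = c * (J * β) / 3 := by ring
      rw [h3]
      nlinarith
    refine le_trans ?_ h1
    rw [inv_le_iff_one_le_mul₀ (by positivity)]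
    have h2 : c * β / 12 = d / (6 * Y) := by
      rw [hY]; field_simp; norm_num
    rw [h2]
    have h3 : d / (6 * Y) * Y ^ 4 = d * Y ^ 3 / 6 := by field_simp
    rw [h3]
    have h4 : (2 : ℝ) ^ 3 ≤ Y ^ 3 := pow_le_pow_left₀ (by norm_num) hY2 3
    nlinarith
  -- `c1`
  set c1 : ℝ := c0 ^ 2 / (32 * d) with hc1def
  have hc10 : 0 < c1 := by positivity
  have hc1h : c1 ≤ 1 / 2 := by
    rw [hc1def, div_le_iff₀ (by positivity)]
    have : c0 ^ 2 ≤ 1 := pow_le_one₀ hc00.le hc01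
    nlinarith
  have hc1Y : (Y ^ 13)⁻¹ ≤ c1 := by
    have h1 : c * β / 12 ≤ c0 := by
      rw [hc0, le_div_iff₀ (by positivity)]
      have h2 : (J : ℝ) * β ≤ 3 := by rwa [le_div_iff₀ hβ] at hJ2
      have h3 : c * β / 12 * (4 * J) = c * (J * β) / 3 := by ring
      rw [h3]
      nlinarith
    have h2 : (c * β / 12) ^ 2 ≤ c0 ^ 2 := pow_le_pow_left₀ (by positivity) h1 2
    have h3 : (c * β / 12) ^ 2 / (32 * d) ≤ c1 := div_le_div_of_nonneg_right h2 (by positivity)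
    refine le_trans ?_ h3
    rw [inv_le_iff_one_le_mul₀ (by positivity)]
    have h4 : c * β / 12 = d / (6 * Y) := by
      rw [hY]; field_simp; norm_num
    rw [h4]
    have h5 : (d / (6 * Y)) ^ 2 / (32 * d) * Y ^ 13 = d * Y ^ 11 / 1152 := by
      field_simp
      norm_num
    rw [h5]
    have h6 : (2 : ℝ) ^ 11 ≤ Y ^ 11 := pow_le_pow_left₀ (by norm_num) hY2 11
    nlinarith
  -- `κ`
  set q : ℕ := ⌈8 / β⌉₊ with hq
  have hq1 : 8 / β ≤ q := Nat.le_ceil _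
  have hq2 : (q : ℝ) ≤ 9 / β := by
    have h1 : (q : ℝ) < 8 / β + 1 := Nat.ceil_lt_add_one (by positivity)
    have h2 : (1 : ℝ) ≤ 1 / β := by rw [le_div_iff₀ hβ]; linarith
    have h3 : 8 / β + 1 / β = 9 / β := by ring
    linarith
  have hq0 : 1 ≤ q := by
    have : (8 : ℝ) ≤ 8 / β := by rw [le_div_iff₀ hβ]; linarith
    have h2 : (8 : ℝ) ≤ q := this.trans hq1
    have h3 : 8 ≤ q := by exact_mod_cast h2
    omega
  set κ : ℝ := c1 ^ q with hκ
  have hκ0 : 0 < κ := by positivity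
  have hκ1 : κ ≤ 1 := pow_le_one₀ hc10.le (by linarith)
  have hκY : (Y ^ (117 / β))⁻¹ ≤ κ := by
    have h1 : ((Y ^ 13)⁻¹) ^ q ≤ κ := pow_le_pow_left₀ (by positivity) hc1Y q
    refine le_trans ?_ h1
    rw [inv_pow, ← pow_mul]
    apply inv_anti₀ (by positivity)
    rw [← Real.rpow_natCast]
    apply Real.rpow_le_rpow_of_exponent_le hY1
    push_cast
    have : 117 / β = 13 * (9 / β) := by ring
    rw [this]
    linarith
  -- `Rr`
  set Rr : ℝ := (n : ℝ) ^ (β / 2) with hRr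
  have hRr1 : 1 ≤ Rr := Real.one_le_rpow hnr (by linarith)
  have hRr0 : 0 < Rr := by linarith
  obtain ⟨i, hi1, hi2⟩ := exists_scale c1 hc10 hc1h q hq0 n Rr β hRr1 hβ hq1 hn
  -- `θ`
  set θ : ℝ := c1 ^ (2 * 2 ^ i) * κ ^ 2 / (128 * Rr) with hθ
  have hθ0 : 0 < θ := by positivity
  have hnβ : 0 < (n : ℝ) ^ β := by positivity
  have hθlow : c1 ^ 2 * κ ^ 2 / (128 * (n : ℝ) ^ β) ≤ θ := by
    rw [hθ, div_le_div_iff₀ (by positivity) (by positivity)]
    have e1 : (n : ℝ) ^ (-(β / 2)) * (n : ℝ) ^ β = Rr := by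
      rw [hRr, ← Real.rpow_add (by linarith)]
      congr 1; ring
    calc c1 ^ 2 * κ ^ 2 * (128 * Rr) = (c1 ^ 2 * (n : ℝ) ^ (-(β / 2))) * κ ^ 2 * (128 * (n : ℝ) ^ β) := by
          rw [← e1]; ring
      _ ≤ c1 ^ (2 * 2 ^ i) * κ ^ 2 * (128 * (n : ℝ) ^ β) := by
          apply mul_le_mul_of_nonneg_right _ (by positivity)
          exact mul_le_mul_of_nonneg_right hi2 (by positivity)
  -- `k`
  set k : ℕ := ⌈2 / (c0 * θ)⌉₊ with hk
  have hk1 : 2 / (c0 * θ) ≤ k := Nat.le_ceil _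
  have hk2 : (k : ℝ) < 2 / (c0 * θ) + 1 := Nat.ceil_lt_add_one (by positivity)
  have hkD : k + 3 ≤ D := by
    have h1 : 2 / (c0 * θ) ≤ 256 / (c0 * c1 ^ 2 * κ ^ 2) * (n : ℝ) ^ β := by
      rw [div_le_iff₀ (by positivity)]
      calc (2 : ℝ) = 256 / (c0 * c1 ^ 2 * κ ^ 2) * (n : ℝ) ^ β *
            (c0 * (c1 ^ 2 * κ ^ 2 / (128 * (n : ℝ) ^ β))) := by
            field_simp; norm_num
        _ ≤ 256 / (c0 * c1 ^ 2 * κ ^ 2) * (n : ℝ) ^ β * (c0 * θ) := by
            apply mul_le_mul_of_nonneg_left _ (by positivity)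
            exact mul_le_mul_of_nonneg_left hθlow hc00.le
    have hprod1 : c0 * c1 ^ 2 * κ ^ 2 ≤ 1 := by
      have a1 : c1 ^ 2 ≤ 1 := pow_le_one₀ hc10.le (by linarith)
      have a2 : κ ^ 2 ≤ 1 := pow_le_one₀ hκ0.le hκ1
      exact mul_le_one₀ (mul_le_one₀ hc01 (by positivity) a1) (by positivity) a2
    have hnβ1 : 1 ≤ (n : ℝ) ^ β := Real.one_le_rpow hnr hβ.le
    have h2 : (k : ℝ) + 3 ≤ 260 / (c0 * c1 ^ 2 * κ ^ 2) * (n : ℝ) ^ β := by
      have h3 : (4 : ℝ) ≤ 4 / (c0 * c1 ^ 2 * κ ^ 2) * (n : ℝ) ^ β := by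
        have h4 : (4 : ℝ) ≤ 4 / (c0 * c1 ^ 2 * κ ^ 2) := by
          rw [le_div_iff₀ (by positivity)]; linarith
        nlinarith
      have h5 : 260 / (c0 * c1 ^ 2 * κ ^ 2) * (n : ℝ) ^ β
          = 256 / (c0 * c1 ^ 2 * κ ^ 2) * (n : ℝ) ^ β
            + 4 / (c0 * c1 ^ 2 * κ ^ 2) * (n : ℝ) ^ β := by ring
      rw [h5]
      linarith
    have h6 : 260 / (c0 * c1 ^ 2 * κ ^ 2) ≤ Y ^ (300 / β) := by
      have hinv : 1 / (c0 * c1 ^ 2 * κ ^ 2) ≤ Y ^ 4 * (Y ^ 13) ^ 2 * (Y ^ (117 / β)) ^ 2 := by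
        have b1 : 1 / c0 ≤ Y ^ 4 := by
          rw [div_le_iff₀ hc00]
          rw [inv_le_iff_one_le_mul₀ (by positivity)] at hc0Y
          linarith
        have b2 : 1 / c1 ≤ Y ^ 13 := by
          rw [div_le_iff₀ hc10]
          rw [inv_le_iff_one_le_mul₀ (by positivity)] at hc1Y
          linarith
        have b3 : 1 / κ ≤ Y ^ (117 / β) := by
          rw [div_le_iff₀ hκ0]
          rw [inv_le_iff_one_le_mul₀ (by positivity)] at hκY
          linarith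
        have b4 : 1 / (c0 * c1 ^ 2 * κ ^ 2) = (1 / c0) * (1 / c1) ^ 2 * (1 / κ) ^ 2 := by
          field_simp
        rw [b4]
        gcongr
      have h7 : Y ^ 4 * (Y ^ 13) ^ 2 * (Y ^ (117 / β)) ^ 2 = Y ^ (30 + 234 / β) := by
        rw [← pow_mul, ← pow_add, ← Real.rpow_natCast, ← Real.rpow_natCast, ← Real.rpow_mul hY0.le,
          ← Real.rpow_add hY0]
        congr 1
        push_cast
        ring
      have h8 : (260 : ℝ) ≤ Y ^ (9 : ℝ) := by
        have : (9 : ℝ) = ((9 : ℕ) : ℝ) := by norm_num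
        rw [this, Real.rpow_natCast]
        have h9 : (2 : ℝ) ^ 9 ≤ Y ^ 9 := pow_le_pow_left₀ (by norm_num) hY2 9
        linarith [(by norm_num : (260 : ℝ) ≤ 2 ^ 9)]
      calc 260 / (c0 * c1 ^ 2 * κ ^ 2) = 260 * (1 / (c0 * c1 ^ 2 * κ ^ 2)) := by ring
        _ ≤ Y ^ (9 : ℝ) * Y ^ (30 + 234 / β) := by
            rw [h7] at hinv
            exact mul_le_mul h8 hinv (by positivity) (by positivity)
        _ = Y ^ (39 + 234 / β) := by
            rw [← Real.rpow_add hY0]; congr 1; ring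
        _ ≤ Y ^ (300 / β) := by
            apply Real.rpow_le_rpow_of_exponent_le hY1
            have h9 : (1 : ℝ) ≤ 1 / β := by rw [le_div_iff₀ hβ]; linarith
            have h10 : 300 / β = 300 * (1 / β) := by ring
            have h11 : 234 / β = 234 * (1 / β) := by ring
            rw [h10, h11]; linarith
    have h12 : ((k + 3 : ℕ) : ℝ) ≤ D := by
      push_cast
      exact h2.trans ((mul_le_mul_of_nonneg_right h6 hnβ.le).trans hD)
    exact_mod_cast h12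
  -- `N`
  set N : ℕ := ⌈256 * J / (κ ^ 2 * c)⌉₊ with hN
  have hN1 : 256 * J / (κ ^ 2 * c) ≤ N := Nat.le_ceil _
  have hN2 : (N : ℝ) < 256 * J / (κ ^ 2 * c) + 1 := Nat.ceil_lt_add_one (by positivity)
  have hbig : 1 ≤ 1 * J / (κ ^ 2 * c) := by
    rw [le_div_iff₀ (by positivity)]
    have a2 : κ ^ 2 ≤ 1 := pow_le_one₀ hκ0.le hκ1
    have : κ ^ 2 * c ≤ 1 := mul_le_one₀ a2 hc.le hc1
    linarith
  have hN0 : 1 ≤ N := by
    have h1 : (1 : ℝ) ≤ N := by
      refine le_trans ?_ hN1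
      have : 256 * J / (κ ^ 2 * c) = 256 * (1 * J / (κ ^ 2 * c)) := by ring
      rw [this]; linarith
    exact_mod_cast h1
  refine ⟨κ, Rr, c0, i, k, N, J, hκ0, hκ1, hRr0, hc00, hc01, hi1, ?_, hkD, hN0, ?_, ?_, ?_⟩
  · rw [← hc1def, ← hθ]
    rw [div_le_iff₀ (by positivity)] at hk1
    linarith
  · rw [hRr, ← Real.rpow_natCast, ← Real.rpow_mul (by linarith)]
    calc (n : ℝ) = (n : ℝ) ^ (1 : ℝ) := (Real.rpow_one _).symm
      _ ≤ (n : ℝ) ^ (β / 2 * J) := by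
        apply Real.rpow_le_rpow_of_exponent_le hnr
        rw [div_le_iff₀ hβ] at hJ1
        linarith
  · -- few lost edges
    have hz : 0 < 8 * J / c := by positivity
    have h1 : (1 - κ ^ 2 / 16 / 2) ^ N ≤ c / (8 * J) := by
      have a2 : κ ^ 2 ≤ 1 := pow_le_one₀ hκ0.le hκ1
      have e1 : 1 - κ ^ 2 / 16 / 2 ≤ Real.exp (-(κ ^ 2 / 32)) := by
        have := Real.add_one_le_exp (-(κ ^ 2 / 32))
        linarith
      have e2 : (1 - κ ^ 2 / 16 / 2) ^ N ≤ Real.exp (-(κ ^ 2 / 32)) ^ N :=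
        pow_le_pow_left₀ (by linarith) e1 N
      refine e2.trans ?_
      rw [← Real.exp_nat_mul]
      have e3 : (N : ℝ) * -(κ ^ 2 / 32) ≤ -(8 * J / c) := by
        have e4 : 8 * J / c ≤ N * (κ ^ 2 / 32) := by
          calc 8 * J / c = 256 * J / (κ ^ 2 * c) * (κ ^ 2 / 32) := by
                field_simp
                norm_num
            _ ≤ _ := mul_le_mul_of_nonneg_right hN1 (by positivity)
        linarith
      refine (Real.exp_le_exp.2 e3).trans ?_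
      rw [Real.exp_neg]
      have e5 : 8 * J / c ≤ Real.exp (8 * J / c) := by
        have := Real.add_one_le_exp (8 * J / c)
        linarith
      have e6 : c / (8 * J) = (8 * J / c)⁻¹ := by rw [inv_div]
      rw [e6]
      exact inv_anti₀ hz e5
    have h2 : (J : ℝ) * (c0 + 2 * (1 - κ ^ 2 / 16 / 2) ^ N) ≤ J * (c0 + 2 * (c / (8 * J))) := by
      apply mul_le_mul_of_nonneg_left _ (by linarith)
      linarith
    refine h2.trans (le_of_eq ?_)
    rw [hc0]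
    field_simp
    norm_num
  · -- the final bound
    have hNY : (N : ℝ) ≤ Y ^ (244 / β) := by
      have h1 : (N : ℝ) ≤ 257 * J / (κ ^ 2 * c) := by
        have : 257 * J / (κ ^ 2 * c) = 256 * J / (κ ^ 2 * c) + 1 * J / (κ ^ 2 * c) := by ring
        rw [this]; linarith
      have b3 : 1 / κ ≤ Y ^ (117 / β) := by
        rw [div_le_iff₀ hκ0]
        rw [inv_le_iff_one_le_mul₀ (by positivity)] at hκY
        linarith
      have h2 : (J : ℝ) / c ≤ 3 / 2 * Y := by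
        rw [div_le_iff₀ hc]
        have h3 : 3 / 2 * Y * c = 3 * d / β := by rw [hY]; field_simp
        rw [h3]
        refine hJ2.trans ?_
        apply div_le_div_of_nonneg_right _ hβ.le
        linarith
      have h4 : 257 * J / (κ ^ 2 * c) = 257 * (J / c) * (1 / κ) ^ 2 := by field_simp
      rw [h4] at h1
      have h5 : 257 * (J / c) * (1 / κ) ^ 2 ≤ 257 * (3 / 2 * Y) * (Y ^ (117 / β)) ^ 2 := by
        gcongr
      have h6 : 257 * (3 / 2 * Y) ≤ Y ^ (10 : ℝ) := by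
        have : (10 : ℝ) = ((10 : ℕ) : ℝ) := by norm_num
        rw [this, Real.rpow_natCast]
        have h9 : (2 : ℝ) ^ 9 ≤ Y ^ 9 := pow_le_pow_left₀ (by norm_num) hY2 9
        have h10 : Y ^ 10 = Y ^ 9 * Y := by ring
        rw [h10]
        nlinarith
      refine h1.trans (h5.trans ?_)
      calc 257 * (3 / 2 * Y) * (Y ^ (117 / β)) ^ 2 ≤ Y ^ (10 : ℝ) * (Y ^ (117 / β)) ^ 2 :=
            mul_le_mul_of_nonneg_right h6 (by positivity)
        _ = Y ^ (10 + 234 / β) := by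
            rw [← Real.rpow_natCast, ← Real.rpow_mul hY0.le, ← Real.rpow_add hY0]
            congr 1; push_cast; ring
        _ ≤ Y ^ (244 / β) := by
            apply Real.rpow_le_rpow_of_exponent_le hY1
            have h9 : (1 : ℝ) ≤ 1 / β := by rw [le_div_iff₀ hβ]; linarith
            have h10 : 244 / β = 244 * (1 / β) := by ring
            have h11 : 234 / β = 234 * (1 / β) := by ring
            rw [h10, h11]; linarith
    have hNr : (1 : ℝ) ≤ N := by exact_mod_cast hN0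
    have h1 : (Y ^ (495 / β))⁻¹ ≤ c0 / (8 * N ^ 2) := by
      rw [inv_le_iff_one_le_mul₀ (by positivity), div_mul_eq_mul_div, le_div_iff₀ (by positivity),
        one_mul]
      have h2 : (8 : ℝ) * N ^ 2 ≤ Y ^ (3 : ℝ) * (Y ^ (244 / β)) ^ 2 := by
        have : (3 : ℝ) = ((3 : ℕ) : ℝ) := by norm_num
        have h3 : (8 : ℝ) ≤ Y ^ (3 : ℝ) := by
          rw [this, Real.rpow_natCast]
          have h9 : (2 : ℝ) ^ 3 ≤ Y ^ 3 := pow_le_pow_left₀ (by norm_num) hY2 3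
          linarith [(by norm_num : (8 : ℝ) = 2 ^ 3)]
        have h4 : (N : ℝ) ^ 2 ≤ (Y ^ (244 / β)) ^ 2 := pow_le_pow_left₀ (by linarith) hNY 2
        exact mul_le_mul h3 h4 (by positivity) (by positivity)
      have h5 : Y ^ (3 : ℝ) * (Y ^ (244 / β)) ^ 2 ≤ c0 * Y ^ (495 / β) := by
        have h6 : 1 ≤ c0 * Y ^ 4 := by
          rwa [inv_le_iff_one_le_mul₀ (by positivity)] at hc0Y
        have h7 : Y ^ (3 : ℝ) * (Y ^ (244 / β)) ^ 2 * Y ^ 4 ≤ Y ^ (495 / β) := by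
          calc Y ^ (3 : ℝ) * (Y ^ (244 / β)) ^ 2 * Y ^ 4 = Y ^ (7 + 488 / β) := by
                rw [← Real.rpow_natCast, ← Real.rpow_natCast, ← Real.rpow_mul hY0.le,
                  ← Real.rpow_add hY0, ← Real.rpow_add hY0]
                congr 1; push_cast; ring
            _ ≤ Y ^ (495 / β) := by
                apply Real.rpow_le_rpow_of_exponent_le hY1
                have h9 : (1 : ℝ) ≤ 1 / β := by rw [le_div_iff₀ hβ]; linarith
                have h10 : 495 / β = 495 * (1 / β) := by ring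
                have h11 : 488 / β = 488 * (1 / β) := by ring
                rw [h10, h11]; linarith
        have h8 : 0 ≤ Y ^ (3 : ℝ) * (Y ^ (244 / β)) ^ 2 := by positivity
        calc Y ^ (3 : ℝ) * (Y ^ (244 / β)) ^ 2 ≤ Y ^ (3 : ℝ) * (Y ^ (244 / β)) ^ 2 * (c0 * Y ^ 4) :=
              le_mul_of_one_le_right h8 h6
          _ = c0 * (Y ^ (3 : ℝ) * (Y ^ (244 / β)) ^ 2 * Y ^ 4) := by ring
          _ ≤ _ := mul_le_mul_of_nonneg_left h7 hc00.le
      exact h2.trans h5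
    have h2 : ((Y ^ (495 / β))⁻¹) ^ J ≤ (c0 / (8 * N ^ 2)) ^ J :=
      pow_le_pow_left₀ (by positivity) h1 J
    have h3 : Y⁻¹ ≤ c / 2 := by
      rw [← hyY, div_le_iff₀ (by positivity)]
      nlinarith
    refine le_trans ?_ (mul_le_mul h2 h3 (by positivity) (by positivity))
    have e7 : (Y ^ (495 / β)) ^ J = Y ^ (495 / β * J) := by
      rw [← Real.rpow_natCast, ← Real.rpow_mul hY0.le]
    rw [hyY, inv_pow, e7, ← mul_inv, Real.inv_rpow hY0.le]
    apply inv_anti₀ (by positivity)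
    calc Y ^ (495 / β * J) * Y = Y ^ (495 / β * J + 1) := by
          rw [Real.rpow_add hY0, Real.rpow_one]
      _ ≤ Y ^ (1500 / β ^ 2) := by
          apply Real.rpow_le_rpow_of_exponent_le hY1
          have h9 : (1 : ℝ) ≤ 1 / β ^ 2 := by
            rw [le_div_iff₀ (by positivity)]
            nlinarith
          have h10 : 495 / β * J ≤ 1485 * (1 / β ^ 2) := by
            calc 495 / β * J ≤ 495 / β * (3 / β) := mul_le_mul_of_nonneg_left hJ2 (by positivity)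
              _ = _ := by field_simp; norm_num
          have h11 : 1500 / β ^ 2 = 1500 * (1 / β ^ 2) := by ring
          rw [h11]; linarith

end Pool.Agent.W906.SE
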