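import Mathlib

/-!
Removing the small sets of noticeable non-expansion one by one: every edge ends in the rest or in
one of the removed sets, and each vertex lies in few removed sets, up to few edges.
-/

set_option autoImplicit false

namespace Pool.Agent.W906.SE

open Finset

section

variable {V E : Type} [DecidableEq V] [DecidableEq E]

/-- degree of `v` in the set `F` of edges -/
noncomputable def dF (s t : E → V) (F : Finset E) (v : V) : ℝ :=
  ∑ e ∈ F, ((if s e = v then (1 : ℝ) else 0) + (if t e = v then (1 : ℝ) else 0))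

/-- edges of `F` inside `S` -/
def insF (s t : E → V) (F : Finset E) (S : Finset V) : Finset E :=
  F.filter fun e => s e ∈ S ∧ t e ∈ S

/-- no small set has noticeable non-expansion -/
def NoBad (s t : E → V) (C : Finset V) (B κ : ℝ) (F : Finset E) : Prop :=
  ∀ S ⊆ C, (S.card : ℝ) ≤ B → 2 * ((insF s t F S).card : ℝ) ≤ κ * ∑ v ∈ S, dF s t F v

omit [DecidableEq E] in
theorem dF_nonneg (s t : E → V) (F : Finset E) (v : V) : 0 ≤ dF s t F v := by
  unfold dF
  exact sum_nonneg fun e _ => by positivity

theorem dF_sdiff (s t : E → V) (F G : Finset E) (h : G ⊆ F) (v : V) :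
    dF s t (F \ G) v = dF s t F v - dF s t G v := by
  unfold dF
  rw [← sum_sdiff h]
  ring

omit [DecidableEq E] in
/-- a minimal bad set -/
theorem minimal_bad (s t : E → V) (C : Finset V) (B κ : ℝ) (hκ : 0 ≤ κ) (F : Finset E)
    (h : ¬ NoBad s t C B κ F) :
    ∃ S ⊆ C, (S.card : ℝ) ≤ B ∧ 0 < (insF s t F S).card ∧
      ∀ v ∈ S, κ / 2 * dF s t F v ≤ dF s t (insF s t F S) v := by
  classical
  unfold NoBad at h
  push Not at h
  obtain ⟨S0, hS0C, hS0B, hS0⟩ := h
  -- choose a bad set of least size
  let P : ℕ → Prop := fun n => ∃ S ⊆ C, S.card = n ∧ (S.card : ℝ) ≤ B ∧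
    κ * ∑ v ∈ S, dF s t F v < 2 * ((insF s t F S).card : ℝ)
  have hP : ∃ n, P n := ⟨S0.card, S0, hS0C, rfl, hS0B, hS0⟩
  obtain ⟨S, hSC, hSn, hSB, hS⟩ := Nat.find_spec hP
  refine ⟨S, hSC, hSB, ?_, ?_⟩
  · have h1 : 0 ≤ κ * ∑ v ∈ S, dF s t F v :=
      mul_nonneg hκ (sum_nonneg fun v _ => dF_nonneg _ _ _ _)
    have h2 : (0 : ℝ) < ((insF s t F S).card : ℝ) := by linarith
    exact_mod_cast h2
  · intro v hv
    have hcard : (S.erase v).card < S.card := card_erase_lt_of_mem hv
    have hnot : ¬ P (S.erase v).card := by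
      apply Nat.find_min hP
      rw [← hSn]; exact hcard
    have h1 : 2 * ((insF s t F (S.erase v)).card : ℝ) ≤ κ * ∑ u ∈ S.erase v, dF s t F u := by
      by_contra hcon
      push Not at hcon
      apply hnot
      refine ⟨S.erase v, (erase_subset _ _).trans hSC, rfl, ?_, hcon⟩
      exact le_trans (by exact_mod_cast hcard.le) hSB
    have h2 : ∑ u ∈ S, dF s t F u = dF s t F v + ∑ u ∈ S.erase v, dF s t F u :=
      (add_sum_erase S _ hv).symm
    have h3 : ((insF s t F S).card : ℝ) - ((insF s t F (S.erase v)).card : ℝ)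
        ≤ dF s t (insF s t F S) v := by
      have e1 : ((insF s t F S).card : ℝ) = ∑ e ∈ insF s t F S, (1 : ℝ) := by simp
      have e2 : ((insF s t F (S.erase v)).card : ℝ)
          = ∑ e ∈ insF s t F S, (if s e ≠ v ∧ t e ≠ v then (1 : ℝ) else 0) := by
        rw [← sum_filter]
        have : insF s t F (S.erase v) = (insF s t F S).filter fun e => s e ≠ v ∧ t e ≠ v := by
          ext e
          simp only [insF, mem_filter, mem_erase]
          tauto
        rw [this]; simp
      rw [e1, e2, ← sum_sub_distrib]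
      unfold dF
      refine sum_le_sum fun e _ => ?_
      by_cases h4 : s e = v
      · have h5 : (0 : ℝ) ≤ (if t e = v then 1 else 0) := by positivity
        simp only [h4, ne_eq, not_true_eq_false, false_and, if_false, if_true]
        linarith
      · by_cases h5 : t e = v
        · simp [h4, h5]
        · simp [h4, h5]
    nlinarith

end

section

variable {V E A : Type} [Fintype V] [DecidableEq V] [DecidableEq E]

/-- number of pairs of slots that satisfy the edge `e` -/
noncomputable def slots (s t : E → V) (sat : E → A → A → Prop) (N : ℕ) (cnt : V → ℕ)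
    (y : V → ℕ → A) (e : E) : ℝ :=
  open Classical in
  ∑ k ∈ range N, ∑ k' ∈ range N,
    (if cnt (s e) ≤ k ∧ cnt (t e) ≤ k' ∧ (s e = t e → k = k') ∧ sat e (y (s e) k) (y (t e) k')
      then (1 : ℝ) else 0)

theorem slots_nonneg (s t : E → V) (sat : E → A → A → Prop) (N : ℕ) (cnt : V → ℕ)
    (y : V → ℕ → A) (e : E) : 0 ≤ slots s t sat N cnt y e := by
  unfold slots
  exact sum_nonneg fun k _ => sum_nonneg fun k' _ => by positivity

/-- indicator that the labelling `x` satisfies `e` -/
noncomputable def si (s t : E → V) (sat : E → A → A → Prop) (x : V → A) (e : E) : ℝ :=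
  open Classical in if sat e (x (s e)) (x (t e)) then (1 : ℝ) else 0

theorem si_nonneg (s t : E → V) (sat : E → A → A → Prop) (x : V → A) (e : E) :
    0 ≤ si s t sat x e := by
  unfold si
  positivity

/-- the removal process -/
theorem removal (s t : E → V) (sat : E → A → A → Prop) [Nonempty A] (N : ℕ) (C : Finset V)
    (B κ α b : ℝ) (hκ : 0 ≤ κ) (hκ1 : κ ≤ 2) (hα : 0 ≤ α) (hb : 0 ≤ b)
    (σ : E → ℝ) (hσ1 : ∀ e, σ e ≤ 1)
    (IH : ∀ S ⊆ C, (S.card : ℝ) ≤ B → ∀ G : Finset E, (∀ e ∈ G, s e ∈ S ∧ t e ∈ S) →
      ∃ x : V → A, α * (∑ e ∈ G, σ e - b * G.card) ≤ ∑ e ∈ G, si s t sat x e) :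
    ∀ (n : ℕ) (F : Finset E), F.card = n → (∀ e ∈ F, s e ∈ C ∧ t e ∈ C) → ∀ cnt : V → ℕ,
      ∃ F' ⊆ F, NoBad s t C B κ F' ∧ ∃ y : V → ℕ → A,
        α * (∑ e ∈ F \ F', σ e - b * (F \ F').card
          - ∑ v, dF s t F v * (1 - κ / 2) ^ (N - cnt v))
        ≤ ∑ e ∈ F \ F', slots s t sat N cnt y e := by
  intro n
  induction n using Nat.strong_induction_on with
  | _ n ih =>
    intro F hFn hF cnt
    have hρ0 : 0 ≤ 1 - κ / 2 := by linarith
    have htrash : ∀ (G : Finset E) (c : V → ℕ), 0 ≤ ∑ v, dF s t G v * (1 - κ / 2) ^ (N - c v) :=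
      fun G c => sum_nonneg fun v _ => mul_nonneg (dF_nonneg _ _ _ _) (pow_nonneg hρ0 _)
    by_cases hNB : NoBad s t C B κ F
    · refine ⟨F, Subset.refl _, hNB, fun _ _ => Classical.arbitrary A, ?_⟩
      rw [Finset.sdiff_self]
      simp only [sum_empty, card_empty, Nat.cast_zero, mul_zero, sub_zero]
      have h1 := htrash F cnt
      have h2 : 0 ≤ α * ∑ v, dF s t F v * (1 - κ / 2) ^ (N - cnt v) := mul_nonneg hα h1
      have h3 : α * (0 - ∑ v, dF s t F v * (1 - κ / 2) ^ (N - cnt v))
          = - (α * ∑ v, dF s t F v * (1 - κ / 2) ^ (N - cnt v)) := by ring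
      rw [h3]
      linarith
    · obtain ⟨S, hSC, hSB, hSpos, hSd⟩ := minimal_bad s t C B κ hκ F hNB
      set FS := insF s t F S with hFS
      have hFSF : FS ⊆ F := filter_subset _ _
      set G := FS.filter (fun e => cnt (s e) < N ∧ cnt (t e) < N) with hG
      have hGFS : G ⊆ FS := filter_subset _ _
      have hFSmem : ∀ e ∈ FS, s e ∈ S ∧ t e ∈ S := fun e he => (mem_filter.1 he).2
      obtain ⟨xS, hxS⟩ := IH S hSC hSB G (fun e he => hFSmem e (hGFS he))
      set cnt' : V → ℕ := fun v => if v ∈ S then cnt v + 1 else cnt v with hcnt'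
      have hlt : (F \ FS).card < n := by
        rw [← hFn]
        apply card_lt_card
        refine ⟨sdiff_subset, fun h => ?_⟩
        obtain ⟨e, he⟩ := card_pos.1 hSpos
        have h1 := h (hFSF he)
        exact (mem_sdiff.1 h1).2 he
      obtain ⟨F', hF'sub, hNB', y', hy'⟩ := ih _ hlt (F \ FS) rfl
        (fun e he => hF e (mem_sdiff.1 he).1) cnt'
      have hF'F : F' ⊆ F := hF'sub.trans sdiff_subset
      set y : V → ℕ → A := fun v k => if v ∈ S ∧ k = cnt v then xS v else y' v k with hy
      refine ⟨F', hF'F, hNB', y, ?_⟩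
      -- the edges
      have hsplit : F \ F' = FS ∪ ((F \ FS) \ F') := by
        ext e
        simp only [mem_sdiff, mem_union]
        constructor
        · rintro ⟨h1, h2⟩
          by_cases h3 : e ∈ FS
          · exact Or.inl h3
          · exact Or.inr ⟨⟨h1, h3⟩, h2⟩
        · rintro (h1 | ⟨⟨h1, -⟩, h2⟩)
          · exact ⟨hFSF h1, fun h2 => (mem_sdiff.1 (hF'sub h2)).2 h1⟩
          · exact ⟨h1, h2⟩
      have hdisj : Disjoint FS ((F \ FS) \ F') := by
        rw [disjoint_left]
        intro e h1 h2
        exact (mem_sdiff.1 (mem_sdiff.1 h2).1).2 h1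
      have hGdisj : ∑ e ∈ FS, σ e = ∑ e ∈ G, σ e + ∑ e ∈ FS \ G, σ e := by
        rw [add_comm, sum_sdiff hGFS]
      -- slots of the removed edges
      have hs1 : ∑ e ∈ G, si s t sat xS e ≤ ∑ e ∈ FS, slots s t sat N cnt y e := by
        refine le_trans ?_ (sum_le_sum_of_subset_of_nonneg hGFS
          fun e _ _ => slots_nonneg s t sat N cnt y e)
        refine sum_le_sum fun e he => ?_
        obtain ⟨heS, h1, h2⟩ := mem_filter.1 he
        obtain ⟨hsS, htS⟩ := hFSmem e heS
        unfold si
        split_ifs with hsat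
        · unfold slots
          have e1 : y (s e) (cnt (s e)) = xS (s e) := by
            rw [hy]; simp [hsS]
          have e2 : y (t e) (cnt (t e)) = xS (t e) := by
            rw [hy]; simp [htS]
          refine le_trans ?_ (single_le_sum (fun k _ => sum_nonneg fun k' _ => ?_) (mem_range.2 h1))
          · refine le_trans ?_ (single_le_sum (fun k' _ => ?_) (mem_range.2 h2))
            · rw [if_pos]
              exact ⟨le_rfl, le_rfl, fun h => by rw [h], by rw [e1, e2]; exact hsat⟩
            · positivity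
          · positivity
        · exact slots_nonneg s t sat N cnt y e
      -- slots of the other edges
      have hs2 : ∑ e ∈ (F \ FS) \ F', slots s t sat N cnt' y' e
          ≤ ∑ e ∈ (F \ FS) \ F', slots s t sat N cnt y e := by
        refine sum_le_sum fun e _ => ?_
        unfold slots
        refine sum_le_sum fun k _ => sum_le_sum fun k' _ => ?_
        split_ifs with h1 h2 h2
        · exact le_rfl
        · exfalso
          apply h2
          obtain ⟨a1, a2, a3, a4⟩ := h1
          have hc : ∀ v, cnt v ≤ cnt' v := fun v => by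
            rw [hcnt']; simp only; split_ifs <;> omega
          have hyy : ∀ v k, cnt' v ≤ k → y v k = y' v k := by
            intro v k hk
            rw [hy]
            simp only
            rw [if_neg]
            rintro ⟨h3, h4⟩
            rw [hcnt'] at hk
            simp only [h3, if_true] at hk
            omega
          exact ⟨(hc _).trans a1, (hc _).trans a2, a3, by rw [hyy _ _ a1, hyy _ _ a2]; exact a4⟩
        · exact zero_le_one
        · exact le_rfl
      -- accounting
      have hbad : ((FS \ G).card : ℝ) ≤ ∑ v, dF s t F v * (1 - κ / 2) ^ (N - cnt v)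
          - ∑ v, dF s t (F \ FS) v * (1 - κ / 2) ^ (N - cnt' v) := by
        rw [← sum_sub_distrib]
        have h1 : ((FS \ G).card : ℝ) ≤ ∑ v, (if v ∈ S ∧ N ≤ cnt v then dF s t FS v else 0) := by
          have e1 : ∑ v, (if v ∈ S ∧ N ≤ cnt v then dF s t FS v else 0)
              = ∑ e ∈ FS, ((if s e ∈ S ∧ N ≤ cnt (s e) then (1 : ℝ) else 0)
                + (if t e ∈ S ∧ N ≤ cnt (t e) then (1 : ℝ) else 0)) := by
            unfold dF
            have e2 : ∀ v, (if v ∈ S ∧ N ≤ cnt v then
                ∑ e ∈ FS, ((if s e = v then (1 : ℝ) else 0) + (if t e = v then (1 : ℝ) else 0)) else 0)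
                = ∑ e ∈ FS, ((if s e = v then (if v ∈ S ∧ N ≤ cnt v then (1 : ℝ) else 0) else 0)
                  + (if t e = v then (if v ∈ S ∧ N ≤ cnt v then (1 : ℝ) else 0) else 0)) := by
              intro v
              split_ifs with h
              · rfl
              · simp
            simp_rw [e2]
            rw [sum_comm]
            refine sum_congr rfl fun e _ => ?_
            rw [sum_add_distrib, sum_ite_eq univ (s e), sum_ite_eq univ (t e)]
            simp
          rw [e1]
          have e3 : ((FS \ G).card : ℝ) = ∑ e ∈ FS \ G, (1 : ℝ) := by simp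
          rw [e3]
          refine le_trans ?_ (sum_le_sum_of_subset_of_nonneg (sdiff_subset (s := FS) (t := G))
            fun e _ _ => by positivity)
          refine sum_le_sum fun e he => ?_
          obtain ⟨h1, h2⟩ := mem_sdiff.1 he
          obtain ⟨h3, h4⟩ := hFSmem e h1
          have h5 : ¬ (cnt (s e) < N ∧ cnt (t e) < N) := fun h => h2 (mem_filter.2 ⟨h1, h⟩)
          by_cases h6 : cnt (s e) < N
          · have h7 : N ≤ cnt (t e) := by
              by_contra h8; exact h5 ⟨h6, not_le.1 h8⟩
            have h8 : (0 : ℝ) ≤ (if s e ∈ S ∧ N ≤ cnt (s e) then (1 : ℝ) else 0) := by positivity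
            have h9 : (if t e ∈ S ∧ N ≤ cnt (t e) then (1 : ℝ) else 0) = 1 := if_pos ⟨h4, h7⟩
            linarith
          · have h8 : (0 : ℝ) ≤ (if t e ∈ S ∧ N ≤ cnt (t e) then (1 : ℝ) else 0) := by positivity
            have h9 : (if s e ∈ S ∧ N ≤ cnt (s e) then (1 : ℝ) else 0) = 1 :=
              if_pos ⟨h3, not_lt.1 h6⟩
            linarith
        refine h1.trans (sum_le_sum fun v _ => ?_)
        rw [dF_sdiff s t F FS hFSF]
        by_cases hv : v ∈ S
        · have hc' : cnt' v = cnt v + 1 := by rw [hcnt']; simp [hv]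
          by_cases hN : N ≤ cnt v
          · rw [if_pos ⟨hv, hN⟩, hc']
            have e1 : N - cnt v = 0 := by omega
            have e2 : N - (cnt v + 1) = 0 := by omega
            rw [e1, e2]
            simp
          · rw [if_neg (fun h => hN h.2), hc']
            have e1 : N - cnt v = (N - (cnt v + 1)) + 1 := by omega
            rw [e1, pow_succ]
            have h2 := hSd v hv
            have h3 : 0 ≤ (1 - κ / 2) ^ (N - (cnt v + 1)) := pow_nonneg hρ0 _
            have h4 : dF s t F v * ((1 - κ / 2) ^ (N - (cnt v + 1)) * (1 - κ / 2))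
                - (dF s t F v - dF s t FS v) * (1 - κ / 2) ^ (N - (cnt v + 1))
                = (1 - κ / 2) ^ (N - (cnt v + 1)) * (dF s t FS v - κ / 2 * dF s t F v) := by ring
            rw [h4]
            exact mul_nonneg h3 (by linarith)
        · have hc' : cnt' v = cnt v := by rw [hcnt']; simp [hv]
          rw [if_neg (fun h => hv h.1), hc']
          have h2 : dF s t FS v = 0 := by
            unfold dF
            apply sum_eq_zero
            intro e he
            obtain ⟨h3, h4⟩ := hFSmem e he
            rw [if_neg (fun h => hv (by rw [← h]; exact h3)),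
              if_neg (fun h => hv (by rw [← h]; exact h4)), add_zero]
          rw [h2]
          simp
      have hσb : ∑ e ∈ FS \ G, σ e ≤ ((FS \ G).card : ℝ) := by
        calc ∑ e ∈ FS \ G, σ e ≤ ∑ e ∈ FS \ G, (1 : ℝ) := sum_le_sum fun e _ => hσ1 e
          _ = _ := by simp
      have hcardle : (G.card : ℝ) ≤ FS.card := by exact_mod_cast card_le_card hGFS
      have hcardsplit : (((FS ∪ ((F \ FS) \ F')).card : ℕ) : ℝ)
          = (FS.card : ℝ) + (((F \ FS) \ F').card : ℝ) := by
        rw [card_union_of_disjoint hdisj]; push_cast; ring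
      rw [hsplit, sum_union hdisj, sum_union hdisj, hcardsplit]
      refine le_trans ?_ (add_le_add (hxS.trans hs1) (hy'.trans hs2))
      rw [← mul_add]
      apply mul_le_mul_of_nonneg_left _ hα
      rw [hGdisj]
      have hbc : b * (G.card : ℝ) ≤ b * (FS.card : ℝ) := mul_le_mul_of_nonneg_left hcardle hb
      linarith

end

end Pool.Agent.W906.SE
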