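import Pool.Agent.W906.SE.Round
import Pool.Agent.W906.SE.Decomp

/-!
From slots to labellings, and one level of the recursion.
-/

set_option autoImplicit false

namespace Pool.Agent.W906.SE

open Finset Pool.Agent.H647R3.UG

section

variable {V K : Type} [Fintype V] [DecidableEq V] [Fintype K] [DecidableEq K]

theorem pm_total (p : V → K → ℝ) (hp1 : ∀ w, ∑ y, p w y = 1) :
    ∑ x : V → K, ∏ w, p w (x w) = 1 := by
  have h := (Finset.prod_univ_sum (fun _ : V => (univ : Finset K)) p).symm
  rw [Fintype.piFinset_univ] at h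
  rw [h]
  exact prod_eq_one fun w _ => hp1 w

theorem pm_pair (p : V → K → ℝ) (hp1 : ∀ w, ∑ y, p w y = 1) (u v : V) (huv : u ≠ v) (a b : K) :
    ∑ x : V → K, (∏ w, p w (x w)) * ((if x u = a then 1 else 0) * (if x v = b then 1 else 0))
      = p u a * p v b := by
  set g : V → K → ℝ := fun w y => p w y *
    ((if w = u then (if y = a then 1 else 0) else 1) * (if w = v then (if y = b then 1 else 0) else 1))
    with hg
  have h := (Finset.prod_univ_sum (fun _ : V => (univ : Finset K)) g).symm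
  rw [Fintype.piFinset_univ] at h
  have h1 : ∀ x : V → K, (∏ w, p w (x w)) *
      ((if x u = a then 1 else 0) * (if x v = b then 1 else 0)) = ∏ w, g w (x w) := by
    intro x
    rw [hg]
    simp only
    rw [prod_mul_distrib, prod_mul_distrib, prod_ite_eq' univ u, prod_ite_eq' univ v]
    simp
  simp_rw [h1]
  rw [h]
  have h2 : ∀ w, ∑ y, g w y = if w = u then p u a else if w = v then p v b else 1 := by
    intro w
    rw [hg]
    simp only
    by_cases hu : w = u
    · subst hu
      rw [if_pos rfl]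
      simp [huv]
    · by_cases hv : w = v
      · subst hv
        simp [hu]
      · simp only [hu, hv, if_false, mul_one]
        exact hp1 w
  simp_rw [h2]
  have h3 : ∀ w, (if w = u then p u a else if w = v then p v b else 1)
      = (if w = u then p u a else 1) * (if w = v then p v b else 1) := by
    intro w
    by_cases hu : w = u
    · subst hu
      simp [huv]
    · simp [hu]
  simp_rw [h3]
  rw [prod_mul_distrib, prod_ite_eq' univ u, prod_ite_eq' univ v]
  simp

theorem pm_one (p : V → K → ℝ) (hp1 : ∀ w, ∑ y, p w y = 1) (u : V) (a : K) :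
    ∑ x : V → K, (∏ w, p w (x w)) * (if x u = a then 1 else 0) = p u a := by
  set g : V → K → ℝ := fun w y => p w y * (if w = u then (if y = a then 1 else 0) else 1)
    with hg
  have h := (Finset.prod_univ_sum (fun _ : V => (univ : Finset K)) g).symm
  rw [Fintype.piFinset_univ] at h
  have h1 : ∀ x : V → K, (∏ w, p w (x w)) * (if x u = a then 1 else 0) = ∏ w, g w (x w) := by
    intro x
    rw [hg]
    simp only
    rw [prod_mul_distrib, prod_ite_eq' univ u]
    simp
  simp_rw [h1]
  rw [h]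
  have h2 : ∀ w, ∑ y, g w y = if w = u then p u a else 1 := by
    intro w
    rw [hg]
    simp only
    by_cases hu : w = u
    · subst hu
      simp
    · simp only [hu, if_false, mul_one]
      exact hp1 w
  simp_rw [h2]
  rw [prod_ite_eq' univ u]
  simp

theorem pm_exists (p : V → K → ℝ) (hp0 : ∀ w y, 0 ≤ p w y) (hp1 : ∀ w, ∑ y, p w y = 1)
    (f : (V → K) → ℝ) : ∃ x, ∑ x : V → K, (∏ w, p w (x w)) * f x ≤ f x := by
  by_contra hcon
  push Not at hcon
  have hone := pm_total p hp1
  have hnn : ∀ x : V → K, 0 ≤ ∏ w, p w (x w) := fun x => prod_nonneg fun w _ => hp0 _ _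
  obtain ⟨x0, -, hx0⟩ : ∃ x ∈ (univ : Finset (V → K)), 0 < ∏ w, p w (x w) := by
    apply exists_lt_of_sum_lt (f := fun _ => (0 : ℝ))
    rw [sum_const_zero, hone]
    exact one_pos
  have h2 : ∑ x : V → K, (∏ w, p w (x w)) * f x
      < ∑ x : V → K, (∏ w, p w (x w)) * ∑ x : V → K, (∏ w, p w (x w)) * f x :=
    sum_lt_sum (fun x _ => mul_le_mul_of_nonneg_left (hcon x).le (hnn x))
      ⟨x0, mem_univ _, mul_lt_mul_of_pos_left (hcon x0) hx0⟩
  rw [← sum_mul, hone, one_mul] at h2
  exact lt_irrefl _ h2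

end

section

variable {V E A : Type} [Fintype V] [DecidableEq V] [DecidableEq E]

/-- from slots to a labelling -/
theorem choose_slots (s t : E → V) (sat : E → A → A → Prop) (N : ℕ) (hN : 1 ≤ N)
    (y : V → ℕ → A) (F : Finset E) :
    ∃ x : V → A, ∑ e ∈ F, slots s t sat N (fun _ => 0) y e
      ≤ (N : ℝ) ^ 2 * ∑ e ∈ F, si s t sat x e := by
  classical
  have hNr : (0 : ℝ) < N := by exact_mod_cast (lt_of_lt_of_le one_pos hN)
  have hN1 : (1 : ℝ) ≤ N := by exact_mod_cast hN
  let p : V → Fin N → ℝ := fun _ _ => 1 / N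
  have hp0 : ∀ w y, 0 ≤ p w y := fun w y => by positivity
  have hp1 : ∀ w, ∑ y, p w y = 1 := by
    intro w
    simp only [p, sum_const, card_univ, Fintype.card_fin, nsmul_eq_mul]
    field_simp
  obtain ⟨k, hk⟩ := pm_exists p hp0 hp1
    (fun k => ∑ e ∈ F, si s t sat (fun v => y v (k v)) e)
  refine ⟨fun v => y v (k v), ?_⟩
  have h1 : ∑ e ∈ F, slots s t sat N (fun _ => 0) y e
      ≤ (N : ℝ) ^ 2 * ∑ k : V → Fin N, (∏ w, p w (k w)) *
        ∑ e ∈ F, si s t sat (fun v => y v (k v)) e := by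
    have e1 : ∑ k : V → Fin N, (∏ w, p w (k w)) * ∑ e ∈ F, si s t sat (fun v => y v (k v)) e
        = ∑ e ∈ F, ∑ k : V → Fin N, (∏ w, p w (k w)) * si s t sat (fun v => y v (k v)) e := by
      rw [sum_comm]
      exact sum_congr rfl fun k _ => by rw [mul_sum]
    rw [e1, mul_sum]
    refine sum_le_sum fun e _ => ?_
    by_cases hst : s e = t e
    · -- a loop
      have e2 : ∀ k : V → Fin N, si s t sat (fun v => y v (k v)) e
          = ∑ i : Fin N, (if sat e (y (s e) i) (y (s e) i) then (1 : ℝ) else 0) *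
            (if k (s e) = i then 1 else 0) := by
        intro k
        rw [sum_eq_single (k (s e))]
        · unfold si
          rw [← hst]
          by_cases h : sat e (y (s e) (k (s e))) (y (s e) (k (s e))) <;> simp [h]
        · intro i _ hi
          rw [if_neg (Ne.symm hi), mul_zero]
        · intro h; exact absurd (mem_univ _) h
      have e3 : ∑ k : V → Fin N, (∏ w, p w (k w)) * si s t sat (fun v => y v (k v)) e
          = ∑ i : Fin N, (if sat e (y (s e) i) (y (s e) i) then (1 : ℝ) else 0) * (1 / N) := by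
        simp_rw [e2, mul_sum]
        rw [sum_comm]
        refine sum_congr rfl fun i _ => ?_
        have := pm_one p hp1 (s e) i
        have h4 : ∀ k : V → Fin N, (∏ w, p w (k w)) *
            ((if sat e (y (s e) i) (y (s e) i) then (1 : ℝ) else 0) * (if k (s e) = i then 1 else 0))
            = (if sat e (y (s e) i) (y (s e) i) then (1 : ℝ) else 0) *
              ((∏ w, p w (k w)) * (if k (s e) = i then 1 else 0)) := fun k => by ring
        simp_rw [h4]
        rw [← mul_sum, this]
      have e4 : slots s t sat N (fun _ => 0) y e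
          = ∑ i : Fin N, (if sat e (y (s e) i) (y (s e) i) then (1 : ℝ) else 0) := by
        unfold slots
        rw [Finset.sum_range]
        refine sum_congr rfl fun i _ => ?_
        rw [Finset.sum_range, sum_eq_single i]
        · rw [← hst]
          by_cases h : sat e (y (s e) i) (y (s e) i) <;> simp [h]
        · intro j _ hj
          rw [if_neg]
          rintro ⟨-, -, h, -⟩
          exact hj (Fin.ext (h hst).symm)
        · intro h; exact absurd (mem_univ _) h
      rw [e3, e4, ← sum_mul]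
      have h5 : 0 ≤ ∑ i : Fin N, (if sat e (y (s e) i) (y (s e) i) then (1 : ℝ) else 0) :=
        sum_nonneg fun i _ => by positivity
      have h6 : (N : ℝ) ^ 2 * ((∑ i : Fin N, (if sat e (y (s e) i) (y (s e) i) then (1 : ℝ) else 0))
          * (1 / N)) = N * ∑ i : Fin N, (if sat e (y (s e) i) (y (s e) i) then (1 : ℝ) else 0) := by
        field_simp
      rw [h6]
      nlinarith
    · have e2 : ∀ k : V → Fin N, si s t sat (fun v => y v (k v)) e
          = ∑ i : Fin N, ∑ j : Fin N, (if sat e (y (s e) i) (y (t e) j) then (1 : ℝ) else 0) *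
            ((if k (s e) = i then 1 else 0) * (if k (t e) = j then 1 else 0)) := by
        intro k
        rw [sum_eq_single (k (s e)), sum_eq_single (k (t e))]
        · unfold si
          by_cases h : sat e (y (s e) (k (s e))) (y (t e) (k (t e))) <;> simp [h]
        · intro i _ hi
          rw [if_neg (Ne.symm hi), mul_zero, mul_zero]
        · intro h; exact absurd (mem_univ _) h
        · intro i _ hi
          refine sum_eq_zero fun j _ => ?_
          rw [if_neg (Ne.symm hi), zero_mul, mul_zero]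
        · intro h; exact absurd (mem_univ _) h
      have e3 : ∑ k : V → Fin N, (∏ w, p w (k w)) * si s t sat (fun v => y v (k v)) e
          = ∑ i : Fin N, ∑ j : Fin N,
            (if sat e (y (s e) i) (y (t e) j) then (1 : ℝ) else 0) * (1 / N * (1 / N)) := by
        simp_rw [e2, mul_sum]
        rw [sum_comm]
        refine sum_congr rfl fun i _ => ?_
        rw [sum_comm]
        refine sum_congr rfl fun j _ => ?_
        have := pm_pair p hp1 (s e) (t e) hst i j
        have h4 : ∀ k : V → Fin N, (∏ w, p w (k w)) *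
            ((if sat e (y (s e) i) (y (t e) j) then (1 : ℝ) else 0) *
              ((if k (s e) = i then 1 else 0) * (if k (t e) = j then 1 else 0)))
            = (if sat e (y (s e) i) (y (t e) j) then (1 : ℝ) else 0) *
              ((∏ w, p w (k w)) *
                ((if k (s e) = i then 1 else 0) * (if k (t e) = j then 1 else 0))) :=
          fun k => by ring
        simp_rw [h4]
        rw [← mul_sum, this]
      have e4 : slots s t sat N (fun _ => 0) y e
          = ∑ i : Fin N, ∑ j : Fin N, (if sat e (y (s e) i) (y (t e) j) then (1 : ℝ) else 0) := by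
        unfold slots
        rw [Finset.sum_range]
        refine sum_congr rfl fun i _ => ?_
        rw [Finset.sum_range]
        refine sum_congr rfl fun j _ => ?_
        by_cases h : sat e (y (s e) i) (y (t e) j) <;> simp [h, hst]
      rw [e3, e4]
      apply le_of_eq
      rw [mul_sum]
      refine sum_congr rfl fun i _ => ?_
      rw [mul_sum]
      refine sum_congr rfl fun j _ => ?_
      field_simp
  exact h1.trans (mul_le_mul_of_nonneg_left hk (by positivity))

end

section

variable {V E A : Type} [Fintype V] [DecidableEq V] [DecidableEq E] [Fintype A] [DecidableEq A]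

/-- the constraint as a relation -/
def rl (R : E → Finset (A × A)) : E → A → A → Prop := fun e a b => (a, b) ∈ R e

theorem si_eq (s t : E → V) (R : E → Finset (A × A)) (x : V → A) (e : E) :
    si s t (rl R) x e = st (s e) (t e) (R e) x := by
  unfold si st rl
  by_cases h : (x (s e), x (t e)) ∈ R e <;> simp [h]

/-- sets with at most one vertex -/
theorem lev_zero (s t : E → V) (R : E → Finset (A × A)) (L : ((V → A) → ℝ) →ₗ[ℝ] ℝ) (D : ℕ)
    (hD : 2 ≤ D) (hL : IsPE D L) (C : Finset V) (hC : (C.card : ℝ) ≤ 1) (F : Finset E)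
    (hF : ∀ e ∈ F, s e ∈ C ∧ t e ∈ C) :
    ∃ x : V → A, ∑ e ∈ F, L (st (s e) (t e) (R e)) ≤ ∑ e ∈ F, si s t (rl R) x e := by
  have hC1 : C.card ≤ 1 := by exact_mod_cast hC
  obtain ⟨x, hx⟩ := pv_exists hD hL (fun e : F => s e.1) (fun e : F => t e.1) (fun e : F => R e.1)
  refine ⟨x, ?_⟩
  have e1 : ∑ e ∈ F, L (st (s e) (t e) (R e)) = ∑ e : F, pv L (s e.1) (t e.1) (R e.1) := by
    rw [← sum_coe_sort F]
    refine sum_congr rfl fun e _ => ?_
    have h1 := hF e.1 e.2
    have h2 : s e.1 = t e.1 := card_le_one.1 hC1 _ h1.1 _ h1.2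
    rw [← h2, pv_eq hD hL]
  have e2 : ∑ e ∈ F, si s t (rl R) x e = ∑ e : F, st (s e.1) (t e.1) (R e.1) x := by
    rw [← sum_coe_sort F]
    exact sum_congr rfl fun e _ => si_eq s t R x e.1
  rw [e1, e2]
  exact hx

/-- one level of the recursion -/
theorem lev_step (s t : E → V) (R : E → Finset (A × A)) (d : ℕ) (hd : 1 ≤ d)
    (hR : ∀ e, Deg d (R e)) (hA : Nonempty A) (L : ((V → A) → ℝ) →ₗ[ℝ] ℝ) (D : ℕ)
    (hL : IsPE D L) (κ Rr B c0 α b : ℝ) (hκ : 0 < κ) (hκ1 : κ ≤ 1) (hRr : 0 < Rr)
    (hc0 : 0 < c0) (hc01 : c0 ≤ 1) (hα : 0 ≤ α) (hα1 : α ≤ 1) (hb : 0 ≤ b)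
    (i : ℕ) (hi : κ ^ (2 ^ i) * Fintype.card V ≤ Rr) (k : ℕ)
    (hk : 1 ≤ (k : ℝ) * (c0 / 2 * ((c0 ^ 2 / (32 * d)) ^ (2 * 2 ^ i) * κ ^ 2 / (128 * Rr))))
    (hD : k + 3 ≤ D) (N : ℕ) (hN : 1 ≤ N)
    (IH : ∀ (C : Finset V) (F : Finset E), (C.card : ℝ) ≤ B → (∀ e ∈ F, s e ∈ C ∧ t e ∈ C) →
      ∃ x : V → A, α * (∑ e ∈ F, L (st (s e) (t e) (R e)) - b * F.card)
        ≤ ∑ e ∈ F, si s t (rl R) x e)
    (C : Finset V) (F : Finset E) (hC : (C.card : ℝ) ≤ Rr * B)
    (hF : ∀ e ∈ F, s e ∈ C ∧ t e ∈ C) :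
    ∃ x : V → A, α * c0 / (8 * N ^ 2) * (∑ e ∈ F, L (st (s e) (t e) (R e))
        - (b + c0 + 2 * (1 - κ ^ 2 / 16 / 2) ^ N) * F.card)
      ≤ ∑ e ∈ F, si s t (rl R) x e := by
  have hNr : (1 : ℝ) ≤ N := by exact_mod_cast hN
  have hκ2 : κ ^ 2 ≤ 1 := pow_le_one₀ hκ.le hκ1
  have hσ : ∀ e, 0 ≤ L (st (s e) (t e) (R e)) ∧ L (st (s e) (t e) (R e)) ≤ 1 :=
    fun e => st_bounds (by omega) hL _ _ _
  set σ : E → ℝ := fun e => L (st (s e) (t e) (R e)) with hσdef
  obtain ⟨F', hF'F, hNB, y, hy⟩ := removal s t (rl R) N C B (κ ^ 2 / 16) α b (by positivity)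
    (by linarith) hα hb σ (fun e => (hσ e).2) (fun S hS hSB G hG => IH S G hSB hG) F.card F rfl hF
    (fun _ => 0)
  set ρ : ℝ := 1 - κ ^ 2 / 16 / 2 with hρ
  have hρ0 : 0 ≤ ρ := by rw [hρ]; linarith
  -- the removed edges
  obtain ⟨x1, hx1⟩ := choose_slots s t (rl R) N hN y (F \ F')
  have hsub1 : ∑ e ∈ F \ F', si s t (rl R) x1 e ≤ ∑ e ∈ F, si s t (rl R) x1 e :=
    sum_le_sum_of_subset_of_nonneg sdiff_subset fun e _ _ => si_nonneg s t (rl R) x1 e
  have htr : ∑ v, dF s t F v * ρ ^ (N - 0) = 2 * F.card * ρ ^ N := by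
    rw [Nat.sub_zero, ← sum_mul]
    congr 1
    unfold dF
    rw [sum_comm]
    have : ∀ e ∈ F, ∑ v, ((if s e = v then (1 : ℝ) else 0) + (if t e = v then (1 : ℝ) else 0)) = 2 := by
      intro e _
      rw [sum_add_distrib, sum_ite_eq univ (s e), sum_ite_eq univ (t e)]
      simp
      norm_num
    rw [sum_congr rfl this]
    simp
    ring
  have hB : α / N ^ 2 * (∑ e ∈ F \ F', σ e - (b + 2 * ρ ^ N) * F.card)
      ≤ ∑ e ∈ F, si s t (rl R) x1 e := by
    have h1 : α * (∑ e ∈ F \ F', σ e - (b + 2 * ρ ^ N) * F.card)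
        ≤ α * (∑ e ∈ F \ F', σ e - b * (F \ F').card - ∑ v, dF s t F v * ρ ^ (N - 0)) := by
      apply mul_le_mul_of_nonneg_left _ hα
      rw [htr]
      have h2 : ((F \ F').card : ℝ) ≤ F.card := by exact_mod_cast card_le_card sdiff_subset
      have h3 := mul_le_mul_of_nonneg_left h2 hb
      linarith
    have h4 : α * (∑ e ∈ F \ F', σ e - (b + 2 * ρ ^ N) * F.card)
        ≤ (N : ℝ) ^ 2 * ∑ e ∈ F, si s t (rl R) x1 e :=
      (h1.trans hy).trans (hx1.trans (mul_le_mul_of_nonneg_left hsub1 (by positivity)))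
    have h5 : α / N ^ 2 * (∑ e ∈ F \ F', σ e - (b + 2 * ρ ^ N) * F.card)
        = (α * (∑ e ∈ F \ F', σ e - (b + 2 * ρ ^ N) * F.card)) / N ^ 2 := by ring
    rw [h5, div_le_iff₀ (by positivity)]
    linarith
  have hsplit : ∑ e ∈ F, σ e = ∑ e ∈ F', σ e + ∑ e ∈ F \ F', σ e := by
    rw [add_comm, sum_sdiff hF'F]
  set XA : ℝ := ∑ e ∈ F', σ e - c0 * F.card with hXA
  set XB : ℝ := ∑ e ∈ F \ F', σ e - (b + 2 * ρ ^ N) * F.card with hXB
  have hgoal : ∑ e ∈ F, σ e - (b + c0 + 2 * ρ ^ N) * F.card = XA + XB := by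
    rw [hsplit, hXA, hXB]; ring
  rw [hgoal]
  have hS1nn : 0 ≤ ∑ e ∈ F, si s t (rl R) x1 e := sum_nonneg fun e _ => si_nonneg _ _ _ _ _
  have hcoef : α * c0 / (8 * N ^ 2) = α / N ^ 2 * (c0 / 8) := by
    field_simp
  have hαN : 0 ≤ α / (N : ℝ) ^ 2 := by positivity
  have hαN1 : α / (N : ℝ) ^ 2 ≤ 1 := by
    rw [div_le_one (by positivity)]
    nlinarith
  rcases le_or_gt XA 0 with hA0 | hA0
  · refine ⟨x1, ?_⟩
    rw [hcoef]
    rcases le_or_gt XB 0 with hB0 | hB0
    · have : α / N ^ 2 * (c0 / 8) * (XA + XB) ≤ 0 :=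
        mul_nonpos_of_nonneg_of_nonpos (by positivity) (by linarith)
      linarith
    · have h1 : α / N ^ 2 * (c0 / 8) * (XA + XB) ≤ α / N ^ 2 * (c0 / 8) * XB :=
        mul_le_mul_of_nonneg_left (by linarith) (by positivity)
      have h2 : α / N ^ 2 * (c0 / 8) * XB ≤ α / N ^ 2 * XB := by
        have h3 : 0 ≤ α / N ^ 2 * XB := by positivity
        have h4 : α / N ^ 2 * (c0 / 8) * XB = (α / N ^ 2 * XB) * (c0 / 8) := by ring
        rw [h4]
        nlinarith
      linarith
  · -- the rest has large value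
    have hF'card : 0 < F'.card := by
      rw [card_pos]
      by_contra hne
      rw [not_nonempty_iff_eq_empty] at hne
      rw [hne] at hXA
      have h1 : (0 : ℝ) ≤ c0 * F.card := by positivity
      have h2 : XA = - (c0 * F.card) := by rw [hXA]; simp
      linarith
    have hF'le : (F'.card : ℝ) ≤ F.card := by exact_mod_cast card_le_card hF'F
    have hval : c0 * (F'.card : ℝ) ≤ ∑ e ∈ F', σ e := by
      have := mul_le_mul_of_nonneg_left hF'le hc0.le
      linarith
    have hσF' : ∑ e ∈ F', σ e ≤ F'.card := by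
      calc ∑ e ∈ F', σ e ≤ ∑ e ∈ F', (1 : ℝ) := sum_le_sum fun e _ => (hσ e).2
        _ = _ := by simp
    obtain ⟨x2, hx2⟩ := round_piece (fun e : F' => s e.1) (fun e : F' => t e.1)
      (fun e : F' => R e.1) d hd (fun e => hR e.1) C (fun e => (hF e.1 (hF'F e.2)).1)
      (fun e => (hF e.1 (hF'F e.2)).2) κ Rr B c0 hκ hκ1 hRr hc0 hc01
      (by
        intro S hS hSB
        have h1 := hNB S hS hSB
        obtain ⟨-, -, -, -, -, -, hwF, -⟩ := T_WT V F' (fun e : F' => s e.1) (fun e : F' => t e.1)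
        have h2 := hwF S (fun _ _ => 1) (fun _ _ => rfl)
        simp only [mul_one] at h2
        rw [h2]
        have h3 : ∑ e ∈ ins (fun e : F' => s e.1) (fun e : F' => t e.1) S, (1 : ℝ)
            = ((insF s t F' S).card : ℝ) := by
          have e1 : ∑ e ∈ ins (fun e : F' => s e.1) (fun e : F' => t e.1) S, (1 : ℝ)
              = ∑ e : F', (if s e.1 ∈ S ∧ t e.1 ∈ S then (1 : ℝ) else 0) := by
            unfold ins
            rw [sum_filter]
          rw [e1, sum_coe_sort F' (fun e => if s e ∈ S ∧ t e ∈ S then (1 : ℝ) else 0),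
            ← sum_filter]
          simp [insF]
        have h4 : ∀ v, dgr (fun e : F' => s e.1) (fun e : F' => t e.1) v = dF s t F' v := by
          intro v
          rw [WT.dgr_eq]
          exact sum_coe_sort F' (fun e => ((if s e = v then (1 : ℝ) else 0)
            + (if t e = v then (1 : ℝ) else 0)))
        rw [h3]
        simp_rw [h4]
        exact h1)
      hC i (le_trans (mul_le_mul_of_nonneg_left (by exact_mod_cast card_le_univ C)
        (by positivity)) hi) (by rw [Fintype.card_coe]; exact hF'card) k hk L D hD hL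
      (by
        rw [Fintype.card_coe]
        refine hval.trans (le_of_eq ?_)
        exact (sum_coe_sort F' σ).symm)
    rw [Fintype.card_coe] at hx2
    have hS2 : c0 / 4 * XA ≤ ∑ e ∈ F, si s t (rl R) x2 e := by
      have h1 : ∑ e : F', st (s e.1) (t e.1) (R e.1) x2 = ∑ e ∈ F', si s t (rl R) x2 e := by
        rw [← sum_coe_sort F']
        exact sum_congr rfl fun e _ => (si_eq s t R x2 e.1).symm
      rw [h1] at hx2
      have h2 : ∑ e ∈ F', si s t (rl R) x2 e ≤ ∑ e ∈ F, si s t (rl R) x2 e :=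
        sum_le_sum_of_subset_of_nonneg hF'F fun e _ _ => si_nonneg s t (rl R) x2 e
      have h3 : c0 / 4 * XA ≤ c0 / 4 * F'.card := by
        apply mul_le_mul_of_nonneg_left _ (by positivity)
        have : (0 : ℝ) ≤ c0 * F.card := by positivity
        linarith
      linarith
    rcases le_total XB XA with hAB | hAB
    · refine ⟨x2, ?_⟩
      refine le_trans ?_ hS2
      rw [hcoef]
      have h1 : α / N ^ 2 * (c0 / 8) * (XA + XB) ≤ α / N ^ 2 * (c0 / 8) * (2 * XA) :=
        mul_le_mul_of_nonneg_left (by linarith) (by positivity)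
      have h2 : α / N ^ 2 * (c0 / 8) * (2 * XA) = (α / N ^ 2) * (c0 / 4 * XA) := by ring
      have h3 : 0 ≤ c0 / 4 * XA := by positivity
      rw [h2] at h1
      nlinarith
    · refine ⟨x1, ?_⟩
      refine le_trans ?_ hB
      rw [hcoef]
      have hB0 : 0 < XB := lt_of_lt_of_le hA0 hAB
      have h1 : α / N ^ 2 * (c0 / 8) * (XA + XB) ≤ α / N ^ 2 * (c0 / 8) * (2 * XB) :=
        mul_le_mul_of_nonneg_left (by linarith) (by positivity)
      have h3 : 0 ≤ α / N ^ 2 * XB := by positivity
      have h2 : α / N ^ 2 * (c0 / 8) * (2 * XB) = (α / N ^ 2 * XB) * (c0 / 4) := by ring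
      rw [h2] at h1
      nlinarith

end

end Pool.Agent.W906.SE
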