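import Pool.Agent.W906.SE.Level

/-!
All levels together, and the choice of the parameters.
-/

set_option autoImplicit false

namespace Pool.Agent.W906.SE

open Finset Pool.Agent.H647R3.UG

section

variable {V E A : Type} [Fintype V] [DecidableEq V] [DecidableEq E] [Fintype A] [DecidableEq A]

theorem levels (s t : E → V) (R : E → Finset (A × A)) (d : ℕ) (hd : 1 ≤ d)
    (hR : ∀ e, Deg d (R e)) (hA : Nonempty A) (L : ((V → A) → ℝ) →ₗ[ℝ] ℝ) (D : ℕ)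
    (hL : IsPE D L) (κ Rr c0 : ℝ) (hκ : 0 < κ) (hκ1 : κ ≤ 1) (hRr : 0 < Rr)
    (hc0 : 0 < c0) (hc01 : c0 ≤ 1)
    (i : ℕ) (hi : κ ^ (2 ^ i) * Fintype.card V ≤ Rr) (k : ℕ)
    (hk : 1 ≤ (k : ℝ) * (c0 / 2 * ((c0 ^ 2 / (32 * d)) ^ (2 * 2 ^ i) * κ ^ 2 / (128 * Rr))))
    (hD : k + 3 ≤ D) (N : ℕ) (hN : 1 ≤ N) (j : ℕ) :
    ∀ (C : Finset V) (F : Finset E), (C.card : ℝ) ≤ Rr ^ j → (∀ e ∈ F, s e ∈ C ∧ t e ∈ C) →
      ∃ x : V → A, (c0 / (8 * N ^ 2)) ^ j * (∑ e ∈ F, L (st (s e) (t e) (R e))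
        - (j * (c0 + 2 * (1 - κ ^ 2 / 16 / 2) ^ N)) * F.card)
        ≤ ∑ e ∈ F, si s t (rl R) x e := by
  have hNr : (1 : ℝ) ≤ N := by exact_mod_cast hN
  have hκ2 : κ ^ 2 ≤ 1 := pow_le_one₀ hκ.le hκ1
  have hq0 : 0 ≤ c0 / (8 * (N : ℝ) ^ 2) := by positivity
  have hq1 : c0 / (8 * (N : ℝ) ^ 2) ≤ 1 := by
    rw [div_le_one (by positivity)]
    nlinarith
  have hρ0 : (0 : ℝ) ≤ 1 - κ ^ 2 / 16 / 2 := by linarith
  induction j with
  | zero =>
    intro C F hC hF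
    obtain ⟨x, hx⟩ := lev_zero s t R L D (by omega) hL C (by simpa using hC) F hF
    refine ⟨x, ?_⟩
    simpa using hx
  | succ j ih =>
    intro C F hC hF
    have hb : 0 ≤ (j : ℝ) * (c0 + 2 * (1 - κ ^ 2 / 16 / 2) ^ N) := by positivity
    obtain ⟨x, hx⟩ := lev_step s t R d hd hR hA L D hL κ Rr (Rr ^ j) c0
      ((c0 / (8 * N ^ 2)) ^ j) (j * (c0 + 2 * (1 - κ ^ 2 / 16 / 2) ^ N)) hκ hκ1 hRr hc0 hc01
      (pow_nonneg hq0 j) (pow_le_one₀ hq0 hq1) hb i hi k hk hD N hN ih C F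
      (by rw [pow_succ] at hC; linarith) hF
    refine ⟨x, le_trans (le_of_eq ?_) hx⟩
    push_cast
    rw [pow_succ]
    ring

end

/-- the theorem with explicit parameters -/
theorem main_param {V E A : Type} [Fintype V] [Fintype E] [Fintype A] [DecidableEq A]
    (s t : E → V) (R : E → Finset (A × A)) (d : ℕ) (hd : 1 ≤ d)
    (hR : ∀ e, Deg d (R e)) (L : ((V → A) → ℝ) →ₗ[ℝ] ℝ) (D : ℕ)
    (hL : IsPE D L) (κ Rr c c0 : ℝ) (hκ : 0 < κ) (hκ1 : κ ≤ 1) (hRr : 0 < Rr)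
    (hc0 : 0 < c0) (hc01 : c0 ≤ 1)
    (i : ℕ) (hi : κ ^ (2 ^ i) * Fintype.card V ≤ Rr) (k : ℕ)
    (hk : 1 ≤ (k : ℝ) * (c0 / 2 * ((c0 ^ 2 / (32 * d)) ^ (2 * 2 ^ i) * κ ^ 2 / (128 * Rr))))
    (hD : k + 3 ≤ D) (N : ℕ) (hN : 1 ≤ N) (J : ℕ) (hJ : (Fintype.card V : ℝ) ≤ Rr ^ J)
    (hbJ : J * (c0 + 2 * (1 - κ ^ 2 / 16 / 2) ^ N) ≤ c / 2)
    (hV : c * Fintype.card E
      ≤ ∑ e, L (fun x => if (x (s e), x (t e)) ∈ R e then 1 else 0)) :
    ∃ x : V → A, (c0 / (8 * N ^ 2)) ^ J * (c / 2) * Fintype.card E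
      ≤ ((univ.filter fun e => (x (s e), x (t e)) ∈ R e).card : ℝ) := by
  classical
  by_cases hA : Nonempty A
  · obtain ⟨x, hx⟩ := levels s t R d hd hR hA L D hL κ Rr c0 hκ hκ1 hRr hc0 hc01 i hi k hk hD N hN
      J univ univ (by simpa using hJ) (fun e _ => ⟨mem_univ _, mem_univ _⟩)
    refine ⟨x, ?_⟩
    have h1 : ∑ e, si s t (rl R) x e
        = ((univ.filter fun e => (x (s e), x (t e)) ∈ R e).card : ℝ) := by
      rw [card_filter, Nat.cast_sum]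
      refine sum_congr rfl fun e _ => ?_
      rw [si_eq]
      unfold st
      split_ifs <;> simp
    rw [← h1]
    refine le_trans ?_ hx
    rw [mul_assoc]
    have hNr : (1 : ℝ) ≤ N := by exact_mod_cast hN
    apply mul_le_mul_of_nonneg_left _ (by positivity)
    have h2 : c * Fintype.card E ≤ ∑ e, L (st (s e) (t e) (R e)) := hV
    have h3 : (J * (c0 + 2 * (1 - κ ^ 2 / 16 / 2) ^ N)) * ((univ : Finset E).card : ℝ)
        ≤ c / 2 * Fintype.card E := by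
      rw [card_univ]
      exact mul_le_mul_of_nonneg_right hbJ (Nat.cast_nonneg _)
    linarith
  · by_cases hE : Nonempty E
    · exfalso
      obtain ⟨e⟩ := hE
      have h1 : IsEmpty (V → A) := ⟨fun x => hA ⟨x (s e)⟩⟩
      have h2 : (fun _ : V → A => (1 : ℝ)) = 0 := by
        funext x
        exact (h1.false x).elim
      have h3 := hL.one
      rw [h2, map_zero] at h3
      exact zero_ne_one h3
    · have h0 : Fintype.card E = 0 := by
        rw [Fintype.card_eq_zero_iff]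
        exact not_nonempty_iff.1 hE
      by_cases hVne : Nonempty V
      · exfalso
        obtain ⟨v⟩ := hVne
        have h1 : IsEmpty (V → A) := ⟨fun x => hA ⟨x v⟩⟩
        have h2 : (fun _ : V → A => (1 : ℝ)) = 0 := by
          funext x
          exact (h1.false x).elim
        have h3 := hL.one
        rw [h2, map_zero] at h3
        exact zero_ne_one h3
      · refine ⟨fun v => (hVne ⟨v⟩).elim, ?_⟩
        rw [h0]
        simp

end Pool.Agent.W906.SE
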