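import Pool.Agent.H647R3.UG.Defs
import Pool.Agent.H647R3.UG.T_FL
import Pool.Agent.H647R3.UG.T_FB
import Pool.Agent.H647R3.UG.T_FC
import Pool.Agent.H647R3.UG.T_FV
import Pool.Agent.H647R3.UG.T_FD
import Pool.Agent.H647R3.UG.T_RD
import Pool.Agent.H647R3.UG.T_WT

/-!
Constraints given by relations of bounded degree: correlation and independent rounding.
-/

set_option autoImplicit false

namespace Pool.Agent.W906.SE

open Finset Pool.Agent.H647R3.UG

/-- indicator that the constraint `R` between `u` and `v` is satisfied -/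
noncomputable def st {V A : Type} [DecidableEq A] (u v : V) (R : Finset (A × A)) :
    (V → A) → ℝ := fun x => if (x u, x v) ∈ R then 1 else 0

/-- every label of one end is compatible with at most `d` labels of the other end -/
def Deg {A : Type} [DecidableEq A] (d : ℕ) (R : Finset (A × A)) : Prop :=
  (∀ a, (R.filter fun p => p.1 = a).card ≤ d) ∧ ∀ b, (R.filter fun p => p.2 = b).card ≤ d

section

variable {V A : Type} [Fintype V] [DecidableEq V] [Fintype A] [DecidableEq A]

omit [Fintype V] [DecidableEq V] [Fintype A] in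
theorem st_eq (u v : V) (R : Finset (A × A)) :
    st u v R = ∑ p ∈ R, fun x : V → A => ind u p.1 x * ind v p.2 x := by
  funext x
  rw [Finset.sum_apply]
  unfold st ind
  by_cases h : (x u, x v) ∈ R
  · rw [if_pos h, sum_eq_single (x u, x v)]
    · simp
    · intro p _ hp
      by_cases h1 : x u = p.1
      · by_cases h2 : x v = p.2
        · exfalso; apply hp; ext
          · exact h1.symm
          · exact h2.symm
        · rw [if_neg h2, mul_zero]
      · rw [if_neg h1, zero_mul]
    · intro h'; exact absurd h h'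
  · rw [if_neg h]
    symm
    apply sum_eq_zero
    intro p hp
    by_cases h1 : x u = p.1
    · by_cases h2 : x v = p.2
      · exfalso; apply h; rw [h1, h2]; exact hp
      · rw [if_neg h2, mul_zero]
    · rw [if_neg h1, zero_mul]

omit [Fintype V] [DecidableEq V] [Fintype A] in
theorem L_st (L : ((V → A) → ℝ) →ₗ[ℝ] ℝ) (u v : V) (R : Finset (A × A)) :
    L (st u v R) = ∑ p ∈ R, pr2 L u v p.1 p.2 := by
  rw [st_eq, map_sum]
  rfl

theorem st_mem (u v : V) (R : Finset (A × A)) : st u v R ∈ LowDeg V A 2 := by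
  rw [st_eq]
  exact Submodule.sum_mem _ fun p _ => (T_FL V A).2.1 u v p.1 p.2

/-- the value of the constraint under independent labels -/
noncomputable def pv (L : ((V → A) → ℝ) →ₗ[ℝ] ℝ) (u v : V) (R : Finset (A × A)) : ℝ :=
  ∑ x : V → A, (∏ w, pr L w (x w)) * st u v R x

theorem law_sum {r : A → A → ℝ} {p q : A → ℝ} (h : IsLaw r p q) : ∑ x : A × A, r x.1 x.2 = 1 := by
  rw [Fintype.sum_prod_type]
  rw [← h.one]
  exact sum_congr rfl fun a _ => h.left a

theorem st_bounds {L : ((V → A) → ℝ) →ₗ[ℝ] ℝ} {D : ℕ} (hD : 2 ≤ D) (hL : IsPE D L) (u v : V)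
    (R : Finset (A × A)) : 0 ≤ L (st u v R) ∧ L (st u v R) ≤ 1 := by
  have hlaw := (T_FB T_FL V A L D hD hL).1 u v
  rw [L_st]
  constructor
  · exact sum_nonneg fun p _ => hlaw.nonneg _ _
  · rw [← law_sum hlaw]
    exact sum_le_sum_of_subset_of_nonneg (subset_univ _) fun p _ _ => hlaw.nonneg _ _

theorem pv_exists {L : ((V → A) → ℝ) →ₗ[ℝ] ℝ} {D : ℕ} (hD : 2 ≤ D) (hL : IsPE D L) {E : Type}
    [Fintype E] (s t : E → V) (R : E → Finset (A × A)) :
    ∃ x : V → A, ∑ e, pv L (s e) (t e) (R e) ≤ ∑ e, st (s e) (t e) (R e) x := by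
  obtain ⟨hlaw, hpr0, -⟩ := T_FB T_FL V A L D hD hL
  have hone : ∑ x : V → A, ∏ w, pr L w (x w) = 1 := by
    have h := (Finset.prod_univ_sum (fun _ : V => (univ : Finset A)) (fun w a => pr L w a)).symm
    rw [Fintype.piFinset_univ] at h
    rw [h]
    exact prod_eq_one fun w _ => (hlaw w w).one
  by_contra hcon
  push Not at hcon
  have h1 : ∑ e, pv L (s e) (t e) (R e)
      = ∑ x : V → A, (∏ w, pr L w (x w)) * ∑ e, st (s e) (t e) (R e) x := by
    unfold pv
    rw [sum_comm]
    exact sum_congr rfl fun x _ => by rw [mul_sum]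
  have h2 : ∑ x : V → A, (∏ w, pr L w (x w)) * ∑ e, st (s e) (t e) (R e) x
      < ∑ x : V → A, (∏ w, pr L w (x w)) * ∑ e, pv L (s e) (t e) (R e) := by
    have hnn : ∀ x : V → A, 0 ≤ ∏ w, pr L w (x w) := fun x => prod_nonneg fun w _ => hpr0 _ _
    obtain ⟨x0, -, hx0⟩ : ∃ x ∈ (univ : Finset (V → A)), 0 < ∏ w, pr L w (x w) := by
      apply exists_lt_of_sum_lt (f := fun _ => (0 : ℝ))
      rw [sum_const_zero, hone]
      exact one_pos
    exact sum_lt_sum (fun x _ => mul_le_mul_of_nonneg_left (hcon x).le (hnn x))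
      ⟨x0, mem_univ _, mul_lt_mul_of_pos_left (hcon x0) hx0⟩
  rw [← sum_mul, hone, one_mul, ← h1] at h2
  exact lt_irrefl _ h2

theorem prod_pair {L : ((V → A) → ℝ) →ₗ[ℝ] ℝ} {D : ℕ} (hD : 2 ≤ D) (hL : IsPE D L)
    (u v : V) (huv : u ≠ v) (a b : A) :
    ∑ x : V → A, (∏ w, pr L w (x w)) * (ind u a x * ind v b x) = pr L u a * pr L v b := by
  obtain ⟨hlaw, hpr0, -⟩ := T_FB T_FL V A L D hD hL
  set g : V → A → ℝ := fun w y => pr L w y *
    ((if w = u then (if y = a then 1 else 0) else 1) * (if w = v then (if y = b then 1 else 0) else 1))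
    with hg
  have h := (Finset.prod_univ_sum (fun _ : V => (univ : Finset A)) g).symm
  rw [Fintype.piFinset_univ] at h
  have h1 : ∀ x : V → A, (∏ w, pr L w (x w)) * (ind u a x * ind v b x) = ∏ w, g w (x w) := by
    intro x
    rw [hg]
    simp only
    rw [prod_mul_distrib, prod_mul_distrib, prod_ite_eq' univ u, prod_ite_eq' univ v]
    simp [ind]
  simp_rw [h1]
  rw [h]
  have h2 : ∀ w, ∑ y, g w y = if w = u then pr L u a else if w = v then pr L v b else 1 := by
    intro w
    rw [hg]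
    simp only
    by_cases hu : w = u
    · subst hu
      rw [if_pos rfl]
      simp [huv]
    · by_cases hv : w = v
      · subst hv
        simp [hu]
      · simp only [hu, hv, if_false, mul_one]
        exact (hlaw w w).one
  simp_rw [h2]
  have h3 : ∀ w, (if w = u then pr L u a else if w = v then pr L v b else 1)
      = (if w = u then pr L u a else 1) * (if w = v then pr L v b else 1) := by
    intro w
    by_cases hu : w = u
    · subst hu
      simp [huv]
    · simp [hu]
  simp_rw [h3]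
  rw [prod_mul_distrib, prod_ite_eq' univ u, prod_ite_eq' univ v]
  simp

theorem pv_ne {L : ((V → A) → ℝ) →ₗ[ℝ] ℝ} {D : ℕ} (hD : 2 ≤ D) (hL : IsPE D L)
    (u v : V) (huv : u ≠ v) (R : Finset (A × A)) :
    pv L u v R = ∑ p ∈ R, pr L u p.1 * pr L v p.2 := by
  unfold pv
  rw [st_eq]
  have h1 : ∀ x : V → A, (∏ w, pr L w (x w)) * (∑ p ∈ R, fun x : V → A => ind u p.1 x * ind v p.2 x) x
      = ∑ p ∈ R, (∏ w, pr L w (x w)) * (ind u p.1 x * ind v p.2 x) := by
    intro x
    rw [Finset.sum_apply, mul_sum]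
  simp_rw [h1]
  rw [sum_comm]
  exact sum_congr rfl fun p _ => prod_pair hD hL u v huv p.1 p.2

theorem prod_one {L : ((V → A) → ℝ) →ₗ[ℝ] ℝ} {D : ℕ} (hD : 2 ≤ D) (hL : IsPE D L)
    (u : V) (a : A) :
    ∑ x : V → A, (∏ w, pr L w (x w)) * ind u a x = pr L u a := by
  obtain ⟨hlaw, hpr0, -⟩ := T_FB T_FL V A L D hD hL
  set g : V → A → ℝ := fun w y => pr L w y * (if w = u then (if y = a then 1 else 0) else 1)
    with hg
  have h := (Finset.prod_univ_sum (fun _ : V => (univ : Finset A)) g).symm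
  rw [Fintype.piFinset_univ] at h
  have h1 : ∀ x : V → A, (∏ w, pr L w (x w)) * ind u a x = ∏ w, g w (x w) := by
    intro x
    rw [hg]
    simp only
    rw [prod_mul_distrib, prod_ite_eq' univ u]
    simp [ind]
  simp_rw [h1]
  rw [h]
  have h2 : ∀ w, ∑ y, g w y = if w = u then pr L u a else 1 := by
    intro w
    rw [hg]
    simp only
    by_cases hu : w = u
    · subst hu
      simp
    · simp only [hu, if_false, mul_one]
      exact (hlaw w w).one
  simp_rw [h2]
  rw [prod_ite_eq' univ u]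
  simp

theorem pv_eq {L : ((V → A) → ℝ) →ₗ[ℝ] ℝ} {D : ℕ} (hD : 2 ≤ D) (hL : IsPE D L)
    (u : V) (R : Finset (A × A)) : pv L u u R = L (st u u R) := by
  obtain ⟨hlaw, hpr0, hsy, hdg, -⟩ := T_FB T_FL V A L D hD hL
  rw [L_st, hdg]
  unfold pv
  rw [st_eq]
  have h1 : ∀ x : V → A, (∏ w, pr L w (x w)) * (∑ p ∈ R, fun x : V → A => ind u p.1 x * ind u p.2 x) x
      = ∑ p ∈ R, (∏ w, pr L w (x w)) * (ind u p.1 x * ind u p.2 x) := by
    intro x
    rw [Finset.sum_apply, mul_sum]
  simp_rw [h1]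
  rw [sum_comm]
  refine sum_congr rfl fun p _ => ?_
  unfold dg
  by_cases h : p.1 = p.2
  · rw [if_pos h]
    have h2 : ∀ x : V → A, ind u p.1 x * ind u p.2 x = ind u p.1 x := by
      intro x
      rw [← h]
      unfold ind
      split_ifs <;> simp
    simp_rw [h2]
    exact prod_one hD hL u p.1
  · rw [if_neg h]
    refine sum_eq_zero fun x _ => ?_
    unfold ind
    by_cases h2 : x u = p.1
    · rw [if_neg (fun h3 => h (h2.symm.trans h3))]
      ring
    · rw [if_neg h2]
      ring

/-- correlation: the difference between the two values of a constraint is bounded by the kernel -/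
theorem kr_lower {L : ((V → A) → ℝ) →ₗ[ℝ] ℝ} {D : ℕ} (hD : 2 ≤ D) (hL : IsPE D L)
    (u v : V) (R : Finset (A × A)) (d : ℕ) (hR : Deg d R) :
    (L (st u v R) - pv L u v R) ^ 2 ≤ d * kr L u v := by
  obtain ⟨hlaw, hpr0, hsy, hdg, -⟩ := T_FB T_FL V A L D hD hL
  have hkr0 : 0 ≤ kr L u v := (T_RD A _ _ _ (hlaw u v)).1
  by_cases huv : u = v
  · subst huv
    rw [pv_eq hD hL, sub_self]
    have : (0 : ℝ) ≤ d * kr L u u := by positivity
    simpa using this
  · rw [pv_ne hD hL u v huv, L_st, ← sum_sub_distrib]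
    have hl := hlaw u v
    set r := pr2 L u v with hr
    set p := pr L u with hp
    set q := pr L v with hq
    have hp0 : ∀ a, 0 ≤ p a := hpr0 u
    have hq0 : ∀ a, 0 ≤ q a := hpr0 v
    have h := Finset.sum_sq_le_sum_mul_sum_of_sq_le_mul R
      (r := fun x => r x.1 x.2 - p x.1 * q x.2)
      (f := fun x => Real.sqrt (p x.1 * q x.2))
      (g := fun x => (r x.1 x.2 - p x.1 * q x.2) ^ 2 / Real.sqrt (p x.1 * q x.2))
      (fun x _ => Real.sqrt_nonneg _)
      (fun x _ => div_nonneg (sq_nonneg _) (Real.sqrt_nonneg _))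
      (fun x _ => by
        have hpq := mul_nonneg (hp0 x.1) (hq0 x.2)
        rcases hpq.lt_or_eq with h1 | h1
        · have h2 := Real.sqrt_pos.2 h1
          rw [mul_div_cancel₀ _ h2.ne']
        · have h3 : r x.1 x.2 = 0 := by
            have h4 : r x.1 x.2 ≤ p x.1 := by
              rw [← hl.left x.1]
              exact single_le_sum (f := fun b => r x.1 b) (fun b _ => hl.nonneg _ _) (mem_univ _)
            have h5 : r x.1 x.2 ≤ q x.2 := by
              rw [← hl.right x.2]
              exact single_le_sum (f := fun a => r a x.2) (fun b _ => hl.nonneg _ _) (mem_univ _)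
            have h6 := hl.nonneg x.1 x.2
            rcases mul_eq_zero.1 h1.symm with h7 | h7
            · linarith
            · linarith
          rw [h3, ← h1]
          simp)
    refine h.trans ?_
    have hs : ∑ x ∈ R, Real.sqrt (p x.1 * q x.2) ≤ d := by
      have h1 : ∑ x ∈ R, Real.sqrt (p x.1 * q x.2) ≤ ∑ x ∈ R, (p x.1 + q x.2) / 2 := by
        refine sum_le_sum fun x _ => ?_
        apply Real.sqrt_le_iff.2
        constructor
        · have := hp0 x.1; have := hq0 x.2; positivity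
        · nlinarith [sq_nonneg (p x.1 - q x.2)]
      have h2 : ∑ x ∈ R, p x.1 ≤ d := by
        have e : ∑ x ∈ R, p x.1 = ∑ a, ((R.filter fun x => x.1 = a).card : ℝ) * p a := by
          rw [← sum_fiberwise R (fun x => x.1)]
          refine sum_congr rfl fun a _ => ?_
          rw [← nsmul_eq_mul, ← sum_const]
          refine sum_congr rfl fun x hx => ?_
          rw [(mem_filter.1 hx).2]
        rw [e]
        calc ∑ a, ((R.filter fun x => x.1 = a).card : ℝ) * p a ≤ ∑ a, (d : ℝ) * p a :=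
              sum_le_sum fun a _ => mul_le_mul_of_nonneg_right (by exact_mod_cast hR.1 a) (hp0 a)
          _ = d := by rw [← mul_sum, (hlaw u u).one, mul_one]
      have h3 : ∑ x ∈ R, q x.2 ≤ d := by
        have e : ∑ x ∈ R, q x.2 = ∑ a, ((R.filter fun x => x.2 = a).card : ℝ) * q a := by
          rw [← sum_fiberwise R (fun x => x.2)]
          refine sum_congr rfl fun a _ => ?_
          rw [← nsmul_eq_mul, ← sum_const]
          refine sum_congr rfl fun x hx => ?_
          rw [(mem_filter.1 hx).2]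
        rw [e]
        calc ∑ a, ((R.filter fun x => x.2 = a).card : ℝ) * q a ≤ ∑ a, (d : ℝ) * q a :=
              sum_le_sum fun a _ => mul_le_mul_of_nonneg_right (by exact_mod_cast hR.2 a) (hq0 a)
          _ = d := by rw [← mul_sum, (hlaw v v).one, mul_one]
      have h4 : ∑ x ∈ R, (p x.1 + q x.2) / 2 = (∑ x ∈ R, p x.1 + ∑ x ∈ R, q x.2) / 2 := by
        rw [← sum_add_distrib, sum_div]
      linarith
    have hk : ∑ x ∈ R, (r x.1 x.2 - p x.1 * q x.2) ^ 2 / Real.sqrt (p x.1 * q x.2) ≤ kr L u v := by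
      have e : kr L u v = ∑ x : A × A, (r x.1 x.2 - p x.1 * q x.2) ^ 2 / Real.sqrt (p x.1 * q x.2) := by
        unfold kr ker
        rw [Fintype.sum_prod_type]
      rw [e]
      exact sum_le_sum_of_subset_of_nonneg (subset_univ _) fun x _ _ =>
        div_nonneg (sq_nonneg _) (Real.sqrt_nonneg _)
    have h0 : 0 ≤ ∑ x ∈ R, (r x.1 x.2 - p x.1 * q x.2) ^ 2 / Real.sqrt (p x.1 * q x.2) :=
      sum_nonneg fun x _ => div_nonneg (sq_nonneg _) (Real.sqrt_nonneg _)
    exact mul_le_mul hs hk h0 (Nat.cast_nonneg d)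

/-- bounds of the kernel in terms of the decrease of the variance -/
theorem kr_dec {L : ((V → A) → ℝ) →ₗ[ℝ] ℝ} {D : ℕ} (hD : 2 ≤ D) (hL : IsPE D L) (u v : V) :
    0 ≤ kr L u v ∧ kr L u v ≤ 1 ∧ (kr L u v) ^ 2 ≤ (dec L u v + dec L v u) / 2 := by
  obtain ⟨hlaw, hpr0, hsymm, hdg, -⟩ := T_FB T_FL V A L D hD hL
  obtain ⟨h1, h2, h3, h4⟩ := T_RD A (pr2 L u v) (pr L u) (pr L v) (hlaw u v)
  have e1 : (∑ a, ∑ b, (pr2 L u v a b - pr L u a * pr L v b) ^ 2 / pr L u a) = dec L u v := rfl
  have e2 : (∑ a, ∑ b, (pr2 L u v a b - pr L u a * pr L v b) ^ 2 / pr L v b) = dec L v u := by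
    unfold dec
    rw [sum_comm]
    refine sum_congr rfl fun b _ => sum_congr rfl fun a _ => ?_
    rw [hsymm u v a b, mul_comm (pr L u a)]
  rw [e1] at h2 h3
  rw [e2] at h2 h4
  have h5 : kr L u v = ker (pr2 L u v) (pr L u) (pr L v) := rfl
  rw [← h5] at h1 h2
  have h6 : kr L u v ≤ 1 := by linarith
  refine ⟨h1, h6, ?_⟩
  nlinarith

end

end Pool.Agent.W906.SE
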