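import Pool.Agent.W906.SE.Walk2
import Pool.Agent.W906.SE.Pairs

/-!
Rounding on a piece without small sets of noticeable non-expansion.
-/

set_option autoImplicit false

namespace Pool.Agent.W906.SE

open Finset Pool.Agent.H647R3.UG

/-- masses of a piece: degree plus average degree -/
noncomputable def ms {V E : Type} [Fintype E] [DecidableEq V] (s t : E → V) (C : Finset V)
    (v : V) : ℝ := dgr s t v + 2 * (Fintype.card E : ℝ) / C.card

/-- total variance of a piece -/
noncomputable def PhiC {V A E : Type} [Fintype E] [DecidableEq V] [Fintype A] [DecidableEq A]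
    (s t : E → V) (C : Finset V) (L : ((V → A) → ℝ) →ₗ[ℝ] ℝ) : ℝ :=
  ∑ v ∈ C, ms s t C v * vr L v

section

variable {V A E : Type} [Fintype V] [DecidableEq V] [Fintype A] [DecidableEq A] [Fintype E]

omit [Fintype V] in
theorem ms_pos (s t : E → V) (C : Finset V) (hE : 0 < Fintype.card E) (hC : 0 < C.card) (v : V) :
    0 < ms s t C v := by
  unfold ms
  have h1 : 0 ≤ dgr s t v := by unfold dgr; positivity
  have h2 : (0 : ℝ) < Fintype.card E := by exact_mod_cast hE
  have h3 : (0 : ℝ) < C.card := by exact_mod_cast hC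
  positivity

theorem ms_sum (s t : E → V) (C : Finset V) (hs : ∀ e, s e ∈ C) (ht : ∀ e, t e ∈ C)
    (hC : 0 < C.card) : ∑ v ∈ C, ms s t C v = 4 * (Fintype.card E : ℝ) := by
  obtain ⟨hw0, hws, hwd, hwC, hwsum, -⟩ := T_WT V E s t
  have h3 : (C.card : ℝ) ≠ 0 := by exact_mod_cast hC.ne'
  unfold ms
  rw [sum_add_distrib, sum_const, nsmul_eq_mul]
  have h1 : ∑ v ∈ C, dgr s t v = ∑ v, dgr s t v := by
    apply sum_subset (subset_univ _)
    intro v _ hv
    unfold dgr
    have e1 : (univ.filter fun e => s e = v) = ∅ := by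
      apply filter_eq_empty_iff.2
      intro e _ h; exact hv (h ▸ hs e)
    have e2 : (univ.filter fun e => t e = v) = ∅ := by
      apply filter_eq_empty_iff.2
      intro e _ h; exact hv (h ▸ ht e)
    rw [e1, e2]; simp
  rw [h1, hwsum]
  field_simp
  ring

/-- if the constraints gain by correlation, then conditioning on one label reduces the variance -/
theorem step (s t : E → V) (R : E → Finset (A × A)) (d : ℕ) (hd : 1 ≤ d)
    (hR : ∀ e, Deg d (R e)) (C : Finset V) (hs : ∀ e, s e ∈ C) (ht : ∀ e, t e ∈ C)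
    (κ Rr B c0 : ℝ) (hκ : 0 < κ) (hκ1 : κ ≤ 1) (hRr : 0 < Rr) (hc0 : 0 < c0)
    (hNB : ∀ S ⊆ C, (S.card : ℝ) ≤ B →
      ∑ u ∈ S, ∑ v ∈ S, wt s t u v ≤ κ ^ 2 / 16 * ∑ u ∈ S, dgr s t u)
    (hCB : (C.card : ℝ) ≤ Rr * B) (i : ℕ) (hi : κ ^ (2 ^ i) * C.card ≤ Rr)
    (hE : 0 < Fintype.card E) (L : ((V → A) → ℝ) →ₗ[ℝ] ℝ) (D : ℕ) (hD : 2 ≤ D) (hL : IsPE D L)
    (hgap : c0 / 4 * Fintype.card E
      ≤ ∑ e, L (st (s e) (t e) (R e)) - ∑ e, pv L (s e) (t e) (R e)) :
    ∃ u, ((c0 ^ 2 / (32 * d)) ^ (2 * 2 ^ i) * κ ^ 2 / (128 * Rr)) * (4 * Fintype.card E)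
      ≤ PhiC s t C L - ∑ a, pr L u a * PhiC s t C (cnd L u a) := by
  obtain ⟨hlaw, hpr0, hsymm, hdiag, -⟩ := T_FB T_FL V A L D hD hL
  obtain ⟨hw0, hws, hwd, hwC, hwsum, hwend, hwF, hwh, hwins⟩ := T_WT V E s t
  obtain ⟨J, instJ, U, hU⟩ := T_FV T_FL (T_FB T_FL) V A L D hD hL
  have hFD := T_FD (T_FB T_FL) V A L D hD hL
  have hEr : (0 : ℝ) < Fintype.card E := by exact_mod_cast hE
  have hdr : (0 : ℝ) < d := by exact_mod_cast (lt_of_lt_of_le one_pos hd)
  obtain ⟨e0⟩ : Nonempty E := Fintype.card_pos_iff.1 hE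
  have hCc : 0 < C.card := card_pos.2 ⟨s e0, hs e0⟩
  have hCr : (0 : ℝ) < C.card := by exact_mod_cast hCc
  have hmpos := ms_pos s t C hE hCc
  have hmsum := ms_sum s t C hs ht hCc
  set m : V → ℝ := ms s t C with hm
  set N : ℝ := (Fintype.card E : ℝ) with hN
  -- local correlation
  have hX : (c0 / 4 * N) ^ 2 ≤ N * (d * ∑ e, kr L (s e) (t e)) := by
    have h1 : (∑ e, (L (st (s e) (t e) (R e)) - pv L (s e) (t e) (R e))) ^ 2
        ≤ N * ∑ e, (L (st (s e) (t e) (R e)) - pv L (s e) (t e) (R e)) ^ 2 := by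
      have h := Finset.sum_sq_le_sum_mul_sum_of_sq_le_mul (univ : Finset E)
        (r := fun e => L (st (s e) (t e) (R e)) - pv L (s e) (t e) (R e))
        (f := fun _ => (1 : ℝ))
        (g := fun e => (L (st (s e) (t e) (R e)) - pv L (s e) (t e) (R e)) ^ 2)
        (fun _ _ => zero_le_one) (fun _ _ => sq_nonneg _) (fun _ _ => by rw [one_mul])
      simpa using h
    have h2 : ∑ e, (L (st (s e) (t e) (R e)) - pv L (s e) (t e) (R e)) ^ 2
        ≤ d * ∑ e, kr L (s e) (t e) := by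
      rw [mul_sum]
      exact sum_le_sum fun e _ => kr_lower hD hL _ _ _ _ (hR e)
    have h3 : (c0 / 4 * N) ^ 2
        ≤ (∑ e, (L (st (s e) (t e) (R e)) - pv L (s e) (t e) (R e))) ^ 2 := by
      apply pow_le_pow_left₀ (by positivity)
      rw [sum_sub_distrib]
      exact hgap
    exact h3.trans (h1.trans (mul_le_mul_of_nonneg_left h2 hEr.le))
  have hloc : c0 ^ 2 / (32 * d) * (4 * N) ≤ 2 * ∑ e, kr L (s e) (t e) := by
    have h1 : (c0 / 4) ^ 2 * N * N ≤ (d * ∑ e, kr L (s e) (t e)) * N := by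
      calc (c0 / 4) ^ 2 * N * N = (c0 / 4 * N) ^ 2 := by ring
        _ ≤ _ := hX
        _ = _ := by ring
    have h2 := le_of_mul_le_mul_right h1 hEr
    have h3 : c0 ^ 2 / (32 * d) * (4 * N) = (c0 / 4) ^ 2 * N * (2 / d) := by
      field_simp
      ring
    rw [h3]
    calc (c0 / 4) ^ 2 * N * (2 / d) ≤ (d * ∑ e, kr L (s e) (t e)) * (2 / d) :=
          mul_le_mul_of_nonneg_right h2 (by positivity)
      _ = _ := by field_simp
  -- the walk on `C`
  let W := {v // v ∈ C}
  let w' : W → W → ℝ := fun u v => wt s t u.1 v.1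
  let m' : W → ℝ := fun u => m u.1
  have hsumC : ∀ F : V → ℝ, ∑ u : W, F u.1 = ∑ v ∈ C, F v := fun F => sum_coe_sort C F
  have hNet : IsNet w' m' := by
    refine ⟨fun u v => hw0 _ _, fun u v => hws _ _, fun u => hmpos _, fun u => ?_⟩
    have h1 : ∑ v : W, w' u v = ∑ v ∈ C, wt s t u.1 v := hsumC (fun v => wt s t u.1 v)
    rw [h1]
    refine (hwC C u.1 u.2).trans ?_
    show dgr s t u.1 ≤ ms s t C u.1
    unfold ms
    have : 0 ≤ 2 * N / (C.card : ℝ) := by positivity
    linarith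
  have hvol : vol m' univ = 4 * N := by
    unfold vol
    have h1 : ∑ v : W, m' v = ∑ v ∈ C, m v := hsumC m
    rw [h1, hmsum]
  set μ : ℝ := 2 * N / Rr with hμ
  have hμ0 : 0 < μ := by positivity
  have hNB' : ∀ S : Finset W, vol m' S ≤ μ → ∑ u ∈ S, ∑ v ∈ S, w' u v ≤ κ ^ 2 / 16 * vol m' S := by
    intro S hS
    let S' : Finset V := S.map ⟨Subtype.val, Subtype.val_injective⟩
    have hS'C : S' ⊆ C := by
      intro v hv
      simp only [S', mem_map, Function.Embedding.coeFn_mk] at hv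
      obtain ⟨x, -, rfl⟩ := hv
      exact x.2
    have hcard : S'.card = S.card := card_map _
    have h1 : (S'.card : ℝ) * (2 * N / C.card) ≤ vol m' S := by
      rw [hcard, ← nsmul_eq_mul, ← sum_const]
      unfold vol
      refine sum_le_sum fun u _ => ?_
      show 2 * N / (C.card : ℝ) ≤ ms s t C u.1
      unfold ms
      have : 0 ≤ dgr s t u.1 := by unfold dgr; positivity
      linarith
    have h2 : (S'.card : ℝ) ≤ B := by
      have h3 : (S'.card : ℝ) * (2 * N / C.card) ≤ 2 * N / Rr := h1.trans hS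
      have h4 : (S'.card : ℝ) ≤ C.card / Rr := by
        rw [le_div_iff₀ hRr]
        rw [le_div_iff₀ hRr] at h3
        have h5 : (S'.card : ℝ) * Rr * (2 * N) ≤ C.card * (2 * N) := by
          have h6 : (S'.card : ℝ) * (2 * N / C.card) * Rr * C.card = S'.card * Rr * (2 * N) := by
            field_simp
          rw [← h6]
          calc (S'.card : ℝ) * (2 * N / C.card) * Rr * C.card ≤ 2 * N * C.card :=
                mul_le_mul_of_nonneg_right h3 hCr.le
            _ = _ := by ring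
        exact le_of_mul_le_mul_right h5 (by positivity)
      refine h4.trans ?_
      rw [div_le_iff₀ hRr]
      linarith
    have h3 := hNB S' hS'C h2
    have e1 : ∑ u ∈ S', ∑ v ∈ S', wt s t u v = ∑ u ∈ S, ∑ v ∈ S, w' u v := by
      simp only [S', sum_map, Function.Embedding.coeFn_mk]
      rfl
    have e2 : ∑ u ∈ S', dgr s t u ≤ vol m' S := by
      simp only [S', sum_map, Function.Embedding.coeFn_mk]
      unfold vol
      refine sum_le_sum fun u _ => ?_
      show dgr s t u.1 ≤ ms s t C u.1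
      unfold ms
      have : 0 ≤ 2 * N / (C.card : ℝ) := by positivity
      linarith
    rw [← e1]
    exact h3.trans (mul_le_mul_of_nonneg_left e2 (by positivity))
  let U' : J → W → ℝ := fun j u => U j u.1
  have h0 : ∑ j, ip m' (U' j) (U' j) ≤ vol m' univ := by
    have e : ∑ j, ip m' (U' j) (U' j) = ∑ u : W, m' u * kr L u.1 u.1 := by
      unfold ip
      rw [sum_comm]
      refine sum_congr rfl fun u _ => ?_
      rw [hU u.1 u.1, mul_sum]
      exact sum_congr rfl fun j _ => by show m' u * U j u.1 * U j u.1 = _; ring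
    rw [e]
    unfold vol
    refine sum_le_sum fun u _ => ?_
    have h1 := (kr_dec hD hL u.1 u.1).2.1
    have h2 := (hNet.pos u).le
    nlinarith
  have h1 : c0 ^ 2 / (32 * d) * vol m' univ ≤ ∑ j, ip m' (U' j) (pw w' m' (U' j)) := by
    have e : ∑ j, ip m' (U' j) (pw w' m' (U' j)) = 2 * ∑ e, kr L (s e) (t e) := by
      have e1 : ∀ j, ip m' (U' j) (pw w' m' (U' j)) = ∑ u : W, ∑ v : W, w' u v * (U' j v * U' j u) := by
        intro j
        rw [ip_comm, ip_pw hNet.pos]
      simp_rw [e1]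
      rw [sum_comm]
      have e2 : ∀ u : W, ∑ j, ∑ v : W, w' u v * (U' j v * U' j u)
          = ∑ v ∈ C, wt s t u.1 v * kr L u.1 v := by
        intro u
        rw [sum_comm, ← hsumC (fun v => wt s t u.1 v * kr L u.1 v)]
        refine sum_congr rfl fun v _ => ?_
        rw [hU u.1 v.1, mul_sum]
        refine sum_congr rfl fun j _ => ?_
        show wt s t u.1 v.1 * (U j v.1 * U j u.1) = _
        ring
      simp_rw [e2]
      rw [hsumC (fun u => ∑ v ∈ C, wt s t u v * kr L u v)]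
      have hks : ∀ u v, kr L u v = kr L v u := by
        intro u v
        rw [hU u v, hU v u]
        exact sum_congr rfl fun j _ => mul_comm _ _
      rw [hwF C (fun u v => kr L u v) hks]
      have hins : ins s t C = univ := by
        ext e; simp [ins, hs e, ht e]
      rw [hins]
    rw [e, hvol]
    exact hloc
  have hi' : ∀ v, κ ^ (2 ^ i) ≤ 64 / (κ ^ 2 * μ) * m' v := by
    intro v
    have h2 : 2 * N / C.card ≤ m' v := by
      show 2 * N / (C.card : ℝ) ≤ ms s t C v.1
      unfold ms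
      have : 0 ≤ dgr s t v.1 := by unfold dgr; positivity
      linarith
    have h3 : 64 / (κ ^ 2 * μ) * (2 * N / C.card) ≤ 64 / (κ ^ 2 * μ) * m' v :=
      mul_le_mul_of_nonneg_left h2 (by positivity)
    refine le_trans ?_ h3
    have h4 : 64 / (κ ^ 2 * μ) * (2 * N / C.card) = 64 * Rr / (κ ^ 2 * C.card) := by
      rw [hμ]
      field_simp
    rw [h4, le_div_iff₀ (by positivity)]
    have h5 : κ ^ 2 ≤ 1 := pow_le_one₀ hκ.le hκ1
    have h6 : κ ^ (2 ^ i) * (κ ^ 2 * C.card) = κ ^ 2 * (κ ^ (2 ^ i) * C.card) := by ring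
    rw [h6]
    have h7 : 0 ≤ κ ^ (2 ^ i) * C.card := by positivity
    nlinarith
  have hc1 : 0 < c0 ^ 2 / (32 * d) := by positivity
  have hGC := global_corr hNet κ μ hκ hκ1 hμ0 hNB' U' (c0 ^ 2 / (32 * d)) hc1
    (by rw [hvol]; positivity) h0 h1 i hi'
  -- translate
  have hGC2 : ∑ u : W, ∑ v : W, m' u * m' v * (∑ j, U' j u * U' j v) ^ 2
      = ∑ u ∈ C, ∑ v ∈ C, m u * m v * kr L u v ^ 2 := by
    rw [← hsumC (fun u => ∑ v ∈ C, m u * m v * kr L u v ^ 2)]
    refine sum_congr rfl fun u _ => ?_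
    rw [← hsumC (fun v => m u.1 * m v * kr L u.1 v ^ 2)]
    refine sum_congr rfl fun v _ => ?_
    rw [hU u.1 v.1]
  rw [hGC2, hvol] at hGC
  set θ : ℝ := (c0 ^ 2 / (32 * d)) ^ (2 * 2 ^ i) * κ ^ 2 / (128 * Rr) with hθ
  have hlow : θ * (4 * N) * (4 * N) ≤ ∑ u ∈ C, ∑ v ∈ C, m u * m v * kr L u v ^ 2 := by
    refine le_trans (le_of_eq ?_) hGC
    rw [hθ, hμ]
    field_simp
    ring
  have hup : ∑ u ∈ C, ∑ v ∈ C, m u * m v * kr L u v ^ 2
      ≤ ∑ u ∈ C, m u * ∑ v ∈ C, m v * dec L u v := by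
    have h1 : ∑ u ∈ C, ∑ v ∈ C, m u * m v * kr L u v ^ 2
        ≤ ∑ u ∈ C, ∑ v ∈ C, m u * m v * ((dec L u v + dec L v u) / 2) :=
      sum_le_sum fun u hu => sum_le_sum fun v hv =>
        mul_le_mul_of_nonneg_left (kr_dec hD hL u v).2.2
          (mul_nonneg (hmpos u).le (hmpos v).le)
    refine h1.trans (le_of_eq ?_)
    have h2 : ∑ u ∈ C, ∑ v ∈ C, m u * m v * ((dec L u v + dec L v u) / 2)
        = (∑ u ∈ C, ∑ v ∈ C, m u * m v * dec L u v
          + ∑ u ∈ C, ∑ v ∈ C, m u * m v * dec L v u) / 2 := by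
      rw [← sum_add_distrib, sum_div]
      refine sum_congr rfl fun u _ => ?_
      rw [← sum_add_distrib, sum_div]
      refine sum_congr rfl fun v _ => ?_
      ring
    have h3 : ∑ u ∈ C, ∑ v ∈ C, m u * m v * dec L v u
        = ∑ u ∈ C, ∑ v ∈ C, m u * m v * dec L u v := by
      rw [sum_comm]
      refine sum_congr rfl fun u _ => sum_congr rfl fun v _ => ?_
      ring
    rw [h2, h3]
    have h4 : ∑ u ∈ C, ∑ v ∈ C, m u * m v * dec L u v
        = ∑ u ∈ C, m u * ∑ v ∈ C, m v * dec L u v := by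
      refine sum_congr rfl fun u _ => ?_
      rw [mul_sum]
      exact sum_congr rfl fun v _ => by ring
    rw [h4]
    ring
  have hex : ∃ u ∈ C, θ * (4 * N) ≤ ∑ v ∈ C, m v * dec L u v := by
    by_contra hcon
    push Not at hcon
    have h1 : ∑ u ∈ C, m u * ∑ v ∈ C, m v * dec L u v < ∑ u ∈ C, m u * (θ * (4 * N)) :=
      sum_lt_sum (fun u hu => mul_le_mul_of_nonneg_left (hcon u hu).le (hmpos u).le)
        ⟨s e0, hs e0, mul_lt_mul_of_pos_left (hcon _ (hs e0)) (hmpos _)⟩
    rw [← sum_mul, hmsum] at h1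
    have h2 := hlow.trans hup
    have h3 : θ * (4 * N) * (4 * N) = 4 * N * (θ * (4 * N)) := by ring
    linarith
  obtain ⟨u, -, hle⟩ := hex
  refine ⟨u, hle.trans (le_of_eq ?_)⟩
  unfold PhiC
  have h2 : ∑ a, pr L u a * ∑ v ∈ C, ms s t C v * vr (cnd L u a) v
      = ∑ v ∈ C, ms s t C v * ∑ a, pr L u a * vr (cnd L u a) v := by
    simp_rw [mul_sum]
    rw [sum_comm]
    refine sum_congr rfl fun v _ => sum_congr rfl fun a _ => ?_
    ring
  rw [h2, ← sum_sub_distrib]
  refine sum_congr rfl fun v _ => ?_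
  rw [hFD u v]
  ring

theorem vr_bds {L : ((V → A) → ℝ) →ₗ[ℝ] ℝ} {D : ℕ} (hD : 2 ≤ D) (hL : IsPE D L) (v : V) :
    0 ≤ vr L v ∧ vr L v ≤ 1 := by
  obtain ⟨hlaw, hpr0, -⟩ := T_FB T_FL V A L D hD hL
  have h1 : ∑ a, pr L v a = 1 := (hlaw v v).one
  have h2 : ∀ a, pr L v a ≤ 1 := fun a => by
    rw [← h1]
    exact single_le_sum (fun a _ => hpr0 v a) (mem_univ a)
  have h3 : ∑ a, pr L v a ^ 2 ≤ 1 := by
    calc ∑ a, pr L v a ^ 2 ≤ ∑ a, pr L v a :=
          sum_le_sum fun a _ => by nlinarith [hpr0 v a, h2 a]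
      _ = 1 := h1
  have h4 : 0 ≤ ∑ a, pr L v a ^ 2 := sum_nonneg fun a _ => sq_nonneg _
  unfold vr
  constructor <;> linarith

/-- rounding of a piece without small sets of noticeable non-expansion -/
theorem round_piece (s t : E → V) (R : E → Finset (A × A)) (d : ℕ) (hd : 1 ≤ d)
    (hR : ∀ e, Deg d (R e)) (C : Finset V) (hs : ∀ e, s e ∈ C) (ht : ∀ e, t e ∈ C)
    (κ Rr B c0 : ℝ) (hκ : 0 < κ) (hκ1 : κ ≤ 1) (hRr : 0 < Rr) (hc0 : 0 < c0) (hc01 : c0 ≤ 1)
    (hNB : ∀ S ⊆ C, (S.card : ℝ) ≤ B →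
      ∑ u ∈ S, ∑ v ∈ S, wt s t u v ≤ κ ^ 2 / 16 * ∑ u ∈ S, dgr s t u)
    (hCB : (C.card : ℝ) ≤ Rr * B) (i : ℕ) (hi : κ ^ (2 ^ i) * C.card ≤ Rr)
    (hE : 0 < Fintype.card E) (k : ℕ)
    (hk : 1 ≤ (k : ℝ) * (c0 / 2 * ((c0 ^ 2 / (32 * d)) ^ (2 * 2 ^ i) * κ ^ 2 / (128 * Rr))))
    (L : ((V → A) → ℝ) →ₗ[ℝ] ℝ) (D : ℕ) (hD : k + 3 ≤ D) (hL : IsPE D L)
    (hV : c0 * Fintype.card E ≤ ∑ e, L (st (s e) (t e) (R e))) :
    ∃ x : V → A, c0 / 4 * Fintype.card E ≤ ∑ e, st (s e) (t e) (R e) x := by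
  have hEr : (0 : ℝ) < Fintype.card E := by exact_mod_cast hE
  have hdr : (0 : ℝ) < d := by exact_mod_cast (lt_of_lt_of_le one_pos hd)
  obtain ⟨e0⟩ : Nonempty E := Fintype.card_pos_iff.1 hE
  have hCc : 0 < C.card := card_pos.2 ⟨s e0, hs e0⟩
  have hmpos := ms_pos s t C hE hCc
  have hmsum := ms_sum s t C hs ht hCc
  set N : ℝ := (Fintype.card E : ℝ) with hN
  set θ : ℝ := (c0 ^ 2 / (32 * d)) ^ (2 * 2 ^ i) * κ ^ 2 / (128 * Rr) with hθ
  have hθ0 : 0 < θ := by positivity
  have hphi : ∀ (L : ((V → A) → ℝ) →ₗ[ℝ] ℝ) (D : ℕ), 2 ≤ D → IsPE D L →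
      0 ≤ PhiC s t C L ∧ PhiC s t C L ≤ 4 * N := by
    intro L D hD hL
    constructor
    · exact sum_nonneg fun v _ => mul_nonneg (hmpos v).le (vr_bds hD hL v).1
    · rw [← hmsum]
      refine sum_le_sum fun v _ => ?_
      have h1 := (hmpos v).le
      have h2 := (vr_bds hD hL v).2
      nlinarith
  have hval : ∀ (L : ((V → A) → ℝ) →ₗ[ℝ] ℝ) (D : ℕ), 2 ≤ D → IsPE D L →
      ∑ e, L (st (s e) (t e) (R e)) ≤ N := by
    intro L D hD hL
    calc ∑ e, L (st (s e) (t e) (R e)) ≤ ∑ _e : E, (1 : ℝ) :=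
          sum_le_sum fun e _ => (st_bounds hD hL _ _ _).2
      _ = N := by simp [hN]
  -- potential
  set h : (((V → A) → ℝ) →ₗ[ℝ] ℝ) → ℝ := fun L =>
    (∑ e, L (st (s e) (t e) (R e))) / N - c0 / 2 * (PhiC s t C L / (4 * N)) with hh
  have key : ∀ k' : ℕ, ∀ (L : ((V → A) → ℝ) →ₗ[ℝ] ℝ) (D : ℕ), k' + 3 ≤ D → IsPE D L →
      c0 / 2 ≤ h L → 1 ≤ h L + k' * (c0 / 2 * θ) →
      ∃ x : V → A, c0 / 4 * N ≤ ∑ e, st (s e) (t e) (R e) x := by
    intro k'
    induction k' with
    | zero =>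
      intro L D hD hL h1 h2
      by_cases hgood : c0 / 4 * N ≤ ∑ e, pv L (s e) (t e) (R e)
      · obtain ⟨x, hx⟩ := pv_exists (by omega) hL s t R
        exact ⟨x, hgood.trans hx⟩
      · exfalso
        obtain ⟨hp0, hp1⟩ := hphi L D (by omega) hL
        have hv := hval L D (by omega) hL
        push_cast at h2
        rw [zero_mul, add_zero] at h2
        -- value at least `c0 / 2`
        have h3 : c0 / 2 * N ≤ ∑ e, L (st (s e) (t e) (R e)) := by
          have h4 : 0 ≤ c0 / 2 * (PhiC s t C L / (4 * N)) := by positivity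
          have h5 : c0 / 2 ≤ (∑ e, L (st (s e) (t e) (R e))) / N := by
            simp only [hh] at h1; linarith
          rwa [le_div_iff₀ hEr] at h5
        obtain ⟨u, hu⟩ := step s t R d hd hR C hs ht κ Rr B c0 hκ hκ1 hRr hc0 hNB hCB i hi hE L D
          (by omega) hL (by push Not at hgood; linarith)
        rw [← hθ, ← hN] at hu
        have h4 : 0 < θ * (4 * N) := by positivity
        have h5 : 0 ≤ ∑ a, pr L u a * PhiC s t C (cnd L u a) := by
          obtain ⟨hlaw, hpr0, -⟩ := T_FB T_FL V A L D (by omega) hL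
          refine sum_nonneg fun a _ => ?_
          rcases (hpr0 u a).lt_or_eq with h6 | h6
          · exact mul_nonneg h6.le (hphi _ (D - 1) (by omega)
              ((T_FC T_FL V A L D (by omega) hL).2.1 u a h6)).1
          · rw [← h6, zero_mul]
        have h6 : PhiC s t C L ≤ 0 := by
          have h7 : (∑ e, L (st (s e) (t e) (R e))) / N ≤ 1 := by
            rw [div_le_one hEr]; exact hv
          simp only [hh] at h2
          have h8 : c0 / 2 * (PhiC s t C L / (4 * N)) ≤ 0 := by linarith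
          have h9 : PhiC s t C L / (4 * N) ≤ 0 := by
            by_contra hneg
            push Not at hneg
            have : 0 < c0 / 2 * (PhiC s t C L / (4 * N)) := by positivity
            linarith
          rw [div_le_iff₀ (by positivity)] at h9
          linarith
        linarith
    | succ k' ih =>
      intro L D hD hL h1 h2
      by_cases hgood : c0 / 4 * N ≤ ∑ e, pv L (s e) (t e) (R e)
      · obtain ⟨x, hx⟩ := pv_exists (by omega) hL s t R
        exact ⟨x, hgood.trans hx⟩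
      · obtain ⟨hp0, hp1⟩ := hphi L D (by omega) hL
        have h3 : c0 / 2 * N ≤ ∑ e, L (st (s e) (t e) (R e)) := by
          have h4 : 0 ≤ c0 / 2 * (PhiC s t C L / (4 * N)) := by positivity
          have h5 : c0 / 2 ≤ (∑ e, L (st (s e) (t e) (R e))) / N := by
            simp only [hh] at h1; linarith
          rwa [le_div_iff₀ hEr] at h5
        obtain ⟨u, hu⟩ := step s t R d hd hR C hs ht κ Rr B c0 hκ hκ1 hRr hc0 hNB hCB i hi hE L D
          (by omega) hL (by push Not at hgood; linarith)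
        rw [← hθ, ← hN] at hu
        obtain ⟨hlaw, hpr0, -⟩ := T_FB T_FL V A L D (by omega) hL
        have hone : ∑ a, pr L u a = 1 := (hlaw u u).one
        obtain ⟨-, hcnd, htot, -⟩ := T_FC T_FL V A L D (by omega) hL
        have havg : ∑ a, pr L u a * ∑ e, cnd L u a (st (s e) (t e) (R e))
            = ∑ e, L (st (s e) (t e) (R e)) := by
          simp_rw [mul_sum]
          rw [sum_comm]
          refine sum_congr rfl fun e _ => ?_
          exact htot u _ ((T_FL V A).2.2.2.1 2 D (by omega) (st_mem _ _ _))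
        have hex : ∃ a, 0 < pr L u a ∧ h L + c0 / 2 * θ ≤ h (cnd L u a) := by
          by_contra hne
          push Not at hne
          have hs1 : h L + c0 / 2 * θ ≤ ∑ a, pr L u a * h (cnd L u a) := by
            have e2 : ∑ a, pr L u a * h (cnd L u a)
                = (∑ a, pr L u a * ∑ e, cnd L u a (st (s e) (t e) (R e))) / N
                  - c0 / 2 * ((∑ a, pr L u a * PhiC s t C (cnd L u a)) / (4 * N)) := by
              rw [hh, sum_div, sum_div, mul_sum, ← sum_sub_distrib]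
              refine sum_congr rfl fun a _ => ?_
              ring
            rw [e2, havg]
            simp only [hh]
            have h6 : (∑ a, pr L u a * PhiC s t C (cnd L u a)) / (4 * N)
                ≤ PhiC s t C L / (4 * N) - θ := by
              rw [div_le_iff₀ (by positivity), sub_mul, div_mul_cancel₀ _ (by positivity)]
              linarith
            have h7 := mul_le_mul_of_nonneg_left h6 (by positivity : (0 : ℝ) ≤ c0 / 2)
            linarith
          have hpos' : ∃ a, 0 < pr L u a := by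
            by_contra hno
            push Not at hno
            have : ∑ a, pr L u a ≤ 0 := sum_nonpos fun a _ => hno a
            linarith
          obtain ⟨a0, ha0⟩ := hpos'
          have hlt : ∑ a, pr L u a * h (cnd L u a) < ∑ a, pr L u a * (h L + c0 / 2 * θ) := by
            apply sum_lt_sum
            · intro a _
              rcases (hpr0 u a).lt_or_eq with h6 | h6
              · exact mul_le_mul_of_nonneg_left (hne a h6).le h6.le
              · rw [← h6, zero_mul, zero_mul]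
            · exact ⟨a0, mem_univ _, mul_lt_mul_of_pos_left (hne a0 ha0) ha0⟩
          rw [← sum_mul, hone, one_mul] at hlt
          linarith
        obtain ⟨a, ha, hle2⟩ := hex
        have hL' := hcnd u a ha
        have h7 : 0 < c0 / 2 * θ := by positivity
        refine ih (cnd L u a) (D - 1) (by omega) hL' (by linarith) ?_
        push_cast at h2
        linarith
  refine key k L D hD hL ?_ ?_
  · obtain ⟨hp0, hp1⟩ := hphi L D (by omega) hL
    simp only [hh]
    have h1 : c0 ≤ (∑ e, L (st (s e) (t e) (R e))) / N := by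
      rw [le_div_iff₀ hEr]; exact hV
    have h2 : PhiC s t C L / (4 * N) ≤ 1 := by
      rw [div_le_one (by positivity)]; exact hp1
    nlinarith
  · obtain ⟨hp0, hp1⟩ := hphi L D (by omega) hL
    have h1 : c0 ≤ (∑ e, L (st (s e) (t e) (R e))) / N := by
      rw [le_div_iff₀ hEr]; exact hV
    have h2 : PhiC s t C L / (4 * N) ≤ 1 := by
      rw [div_le_one (by positivity)]; exact hp1
    have h3 : 0 ≤ h L := by
      simp only [hh]
      nlinarith
    linarith

end

end Pool.Agent.W906.SE
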