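import Mathlib
import Pool.Agent.H647R3.UG.Defs

/-!
Random walks on weighted graphs without small sets of noticeable non-expansion.
-/

set_option autoImplicit false

namespace Pool.Agent.W906.SE

open Finset Pool.Agent.H647R3.UG

/-! ### layers -/

theorem int_ind (x t0 T : ℝ) (h1 : t0 ≤ T) (hx : x ≤ T) :
    ∫ t in t0..T, Set.indicator (Set.Iio x) (fun t => 2 * t) t = max x t0 ^ 2 - t0 ^ 2 := by
  rw [intervalIntegral.integral_of_le h1,
    MeasureTheory.setIntegral_indicator measurableSet_Iio]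
  rcases le_or_gt x t0 with h | h
  · have : Set.Ioc t0 T ∩ Set.Iio x = ∅ := by
      ext t
      simp only [Set.mem_inter_iff, Set.mem_Ioc, Set.mem_Iio, Set.mem_empty_iff_false, iff_false,
        not_and]
      intro h2 h3
      linarith [h2.1]
    rw [this, MeasureTheory.setIntegral_empty, max_eq_right h]
    ring
  · have : Set.Ioc t0 T ∩ Set.Iio x = Set.Ioo t0 x := by
      ext t
      simp only [Set.mem_inter_iff, Set.mem_Ioc, Set.mem_Iio, Set.mem_Ioo]
      constructor
      · rintro ⟨⟨h2, -⟩, h3⟩; exact ⟨h2, h3⟩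
      · rintro ⟨h2, h3⟩; exact ⟨⟨h2, h3.le.trans hx⟩, h3⟩
    rw [this, ← MeasureTheory.integral_Ioc_eq_integral_Ioo,
      ← intervalIntegral.integral_of_le h.le, max_eq_left h.le]
    rw [intervalIntegral.integral_const_mul, integral_id]
    ring

theorem ii_ind (x t0 T : ℝ) :
    IntervalIntegrable (fun t => Set.indicator (Set.Iio x) (fun t => 2 * t) t)
      MeasureTheory.volume t0 T := by
  rw [intervalIntegrable_iff]
  apply MeasureTheory.IntegrableOn.indicator _ measurableSet_Iio
  rw [← intervalIntegrable_iff]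
  exact (continuous_const.mul continuous_id).intervalIntegrable _ _

theorem layer {I J : Type} [Fintype I] [Fintype J] (a x : I → ℝ) (b y : J → ℝ) (κ t0 : ℝ)
    (ht0 : 0 ≤ t0)
    (h : ∀ t, t0 ≤ t → ∑ i, a i * (if t < x i then 1 else 0)
      ≤ κ * ∑ j, b j * (if t < y j then 1 else 0)) :
    ∑ i, a i * (max (x i) t0 ^ 2 - t0 ^ 2) ≤ κ * ∑ j, b j * (max (y j) t0 ^ 2 - t0 ^ 2) := by
  obtain ⟨T, hT⟩ : ∃ T : ℝ, t0 ≤ T ∧ (∀ i, x i ≤ T) ∧ ∀ j, y j ≤ T := by
    refine ⟨t0 + ∑ i, |x i| + ∑ j, |y j|, ?_, ?_, ?_⟩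
    · have h1 : 0 ≤ ∑ i, |x i| := sum_nonneg fun i _ => abs_nonneg _
      have h2 : 0 ≤ ∑ j, |y j| := sum_nonneg fun j _ => abs_nonneg _
      linarith
    · intro i
      have h1 : |x i| ≤ ∑ i, |x i| :=
        single_le_sum (f := fun i => |x i|) (fun i _ => abs_nonneg _) (mem_univ i)
      have h2 : 0 ≤ ∑ j, |y j| := sum_nonneg fun j _ => abs_nonneg _
      linarith [le_abs_self (x i)]
    · intro j
      have h1 : |y j| ≤ ∑ j, |y j| :=
        single_le_sum (f := fun j => |y j|) (fun i _ => abs_nonneg _) (mem_univ j)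
      have h2 : 0 ≤ ∑ i, |x i| := sum_nonneg fun j _ => abs_nonneg _
      linarith [le_abs_self (y j)]
  obtain ⟨hT0, hTx, hTy⟩ := hT
  have e1 : ∑ i, a i * (max (x i) t0 ^ 2 - t0 ^ 2)
      = ∫ t in t0..T, ∑ i, a i * Set.indicator (Set.Iio (x i)) (fun t => 2 * t) t := by
    rw [intervalIntegral.integral_finsetSum]
    · refine sum_congr rfl fun i _ => ?_
      rw [intervalIntegral.integral_const_mul, int_ind _ _ _ hT0 (hTx i)]
    · intro i _
      exact (ii_ind _ _ _).const_mul _
  have e2 : κ * ∑ j, b j * (max (y j) t0 ^ 2 - t0 ^ 2)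
      = ∫ t in t0..T, κ * ∑ j, b j * Set.indicator (Set.Iio (y j)) (fun t => 2 * t) t := by
    rw [intervalIntegral.integral_const_mul, intervalIntegral.integral_finsetSum]
    · congr 1
      refine sum_congr rfl fun i _ => ?_
      rw [intervalIntegral.integral_const_mul, int_ind _ _ _ hT0 (hTy i)]
    · intro i _
      exact (ii_ind _ _ _).const_mul _
  rw [e1, e2]
  apply intervalIntegral.integral_mono_on hT0
  · have e : (fun t => ∑ i, a i * Set.indicator (Set.Iio (x i)) (fun t => 2 * t) t)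
        = ∑ i, fun t => a i * Set.indicator (Set.Iio (x i)) (fun t => 2 * t) t := by
      funext t
      simp
    rw [e]
    exact IntervalIntegrable.sum _ (fun i _ => (ii_ind _ _ _).const_mul _)
  · apply IntervalIntegrable.const_mul
    have e : (fun t => ∑ i, b i * Set.indicator (Set.Iio (y i)) (fun t => 2 * t) t)
        = ∑ i, fun t => b i * Set.indicator (Set.Iio (y i)) (fun t => 2 * t) t := by
      funext t
      simp
    rw [e]
    exact IntervalIntegrable.sum _ (fun i _ => (ii_ind _ _ _).const_mul _)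
  · intro t ht
    have h1 := h t ht.1
    have h2 : 0 ≤ 2 * t := by linarith [ht.1]
    have e3 : ∑ i, a i * Set.indicator (Set.Iio (x i)) (fun t => 2 * t) t
        = 2 * t * ∑ i, a i * (if t < x i then 1 else 0) := by
      rw [mul_sum]
      refine sum_congr rfl fun i _ => ?_
      simp only [Set.indicator, Set.mem_Iio]
      split_ifs <;> ring
    have e4 : κ * ∑ j, b j * Set.indicator (Set.Iio (y j)) (fun t => 2 * t) t
        = 2 * t * (κ * ∑ j, b j * (if t < y j then 1 else 0)) := by
      rw [mul_sum, mul_sum, mul_sum]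
      refine sum_congr rfl fun i _ => ?_
      simp only [Set.indicator, Set.mem_Iio]
      split_ifs <;> ring
    rw [e3, e4]
    exact mul_le_mul_of_nonneg_left h1 h2

/-! ### the walk -/

/-- the averaging operator of the conductances `w` and the masses `m` -/
noncomputable def pw {W : Type} [Fintype W] (w : W → W → ℝ) (m : W → ℝ) (f : W → ℝ) : W → ℝ :=
  fun u => (∑ v, w u v * f v) / m u

section

variable {W : Type} [Fintype W] {w : W → W → ℝ} {m : W → ℝ}

theorem ip_pw (hm : ∀ u, 0 < m u) (f g : W → ℝ) :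
    ip m (pw w m f) g = ∑ u, ∑ v, w u v * (f v * g u) := by
  unfold ip pw
  refine sum_congr rfl fun u _ => ?_
  have := (hm u).ne'
  rw [mul_div_cancel₀ _ this, sum_mul]
  exact sum_congr rfl fun v _ => by ring

theorem ip_comm (f g : W → ℝ) : ip m f g = ip m g f := by
  unfold ip
  exact sum_congr rfl fun v _ => by ring

theorem pw_sym (hN : IsNet w m) (f g : W → ℝ) : ip m (pw w m f) g = ip m f (pw w m g) := by
  rw [ip_pw hN.pos, ip_comm f, ip_pw hN.pos, sum_comm]
  refine sum_congr rfl fun u _ => sum_congr rfl fun v _ => ?_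
  rw [hN.symm v u]
  ring

theorem pw_nonneg (hN : IsNet w m) {f : W → ℝ} (hf : ∀ u, 0 ≤ f u) : ∀ u, 0 ≤ pw w m f u := by
  intro u
  exact div_nonneg (sum_nonneg fun v _ => mul_nonneg (hN.nonneg u v) (hf v)) (hN.pos u).le

theorem pw_sum (hN : IsNet w m) {f : W → ℝ} (hf : ∀ u, 0 ≤ f u) :
    ∑ u, m u * pw w m f u ≤ ∑ u, m u * f u := by
  have h1 : ∑ u, m u * pw w m f u = ∑ v, (∑ u, w u v) * f v := by
    have : ∀ u, m u * pw w m f u = ∑ v, w u v * f v := by
      intro u
      unfold pw
      rw [mul_div_cancel₀ _ (hN.pos u).ne']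
    simp_rw [this]
    rw [sum_comm]
    exact sum_congr rfl fun v _ => by rw [sum_mul]
  rw [h1]
  refine sum_le_sum fun v _ => mul_le_mul_of_nonneg_right ?_ (hf v)
  have : ∑ u, w u v = ∑ u, w v u := sum_congr rfl fun u _ => hN.symm u v
  rw [this]
  exact hN.deg v

theorem ip_nonneg (hN : IsNet w m) (f : W → ℝ) : 0 ≤ ip m f f := by
  unfold ip
  refine sum_nonneg fun u _ => ?_
  have := (hN.pos u).le
  have h2 : m u * f u * f u = m u * (f u) ^ 2 := by ring
  rw [h2]
  positivity

theorem sum_w_sq (hN : IsNet w m) (g : W → ℝ) :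
    ∑ u, ∑ v, w u v * g v ^ 2 ≤ ip m g g := by
  rw [sum_comm]
  unfold ip
  refine sum_le_sum fun v _ => ?_
  rw [← sum_mul]
  have : ∑ u, w u v = ∑ u, w v u := sum_congr rfl fun u _ => hN.symm u v
  rw [this]
  have h2 : m v * g v * g v = m v * g v ^ 2 := by ring
  rw [h2]
  exact mul_le_mul_of_nonneg_right (hN.deg v) (sq_nonneg _)

theorem pw_contr (hN : IsNet w m) (f : W → ℝ) : ip m (pw w m f) (pw w m f) ≤ ip m f f := by
  refine le_trans ?_ (sum_w_sq hN f)
  unfold ip
  refine sum_le_sum fun u _ => ?_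
  have hmu := hN.pos u
  have h1 : (∑ v, w u v * f v) ^ 2 ≤ (∑ v, w u v) * ∑ v, w u v * f v ^ 2 := by
    apply Finset.sum_sq_le_sum_mul_sum_of_sq_le_mul
    · exact fun v _ => hN.nonneg u v
    · exact fun v _ => mul_nonneg (hN.nonneg u v) (sq_nonneg _)
    · intro v _; apply le_of_eq; ring
  have h2 : 0 ≤ ∑ v, w u v * f v ^ 2 :=
    sum_nonneg fun v _ => mul_nonneg (hN.nonneg u v) (sq_nonneg _)
  have h3 : (∑ v, w u v * f v) ^ 2 ≤ m u * ∑ v, w u v * f v ^ 2 :=
    h1.trans (mul_le_mul_of_nonneg_right (hN.deg u) h2)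
  have h4 : m u * pw w m f u * pw w m f u = (∑ v, w u v * f v) ^ 2 / m u := by
    unfold pw
    field_simp
  rw [h4, div_le_iff₀ hmu]
  linarith

/-- local Cheeger inequality for small sets of small but noticeable non-expansion -/
theorem local_cheeger (hN : IsNet w m) (κ μ : ℝ) (hκ : 0 < κ) (hμ : 0 < μ)
    (hNB : ∀ S : Finset W, vol m S ≤ μ → ∑ u ∈ S, ∑ v ∈ S, w u v ≤ κ ^ 2 / 16 * vol m S)
    (f : W → ℝ) (hf : ∀ u, 0 ≤ f u) (hs : ∑ u, m u * f u ≤ 1)
    (hbig : 64 / (κ ^ 2 * μ) ≤ ip m f f) :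
    ip m (pw w m f) (pw w m f) ≤ κ * ip m f f := by
  classical
  by_contra hcon
  rw [not_le] at hcon
  have hff : 0 < ip m f f := lt_of_lt_of_le (by positivity) hbig
  have hpf := pw_nonneg hN hf
  set g : W → ℝ := fun u => f u + pw w m f u with hg
  have hg0 : ∀ u, 0 ≤ g u := fun u => add_nonneg (hf u) (hpf u)
  have hgs : ∑ u, m u * g u ≤ 2 := by
    have h1 : ∑ u, m u * g u = ∑ u, m u * f u + ∑ u, m u * pw w m f u := by
      rw [← sum_add_distrib]
      exact sum_congr rfl fun u _ => by rw [hg]; ring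
    have h2 := pw_sum hN hf
    rw [h1]; linarith
  -- norms
  have hnn : ∀ a b : W → ℝ, (∀ u, 0 ≤ a u) → (∀ u, 0 ≤ b u) → 0 ≤ ip m a b := by
    intro a b ha hb
    unfold ip
    exact sum_nonneg fun u _ => mul_nonneg (mul_nonneg (hN.pos u).le (ha u)) (hb u)
  have hgg1 : ip m f f ≤ ip m g g := by
    unfold ip
    refine sum_le_sum fun u _ => ?_
    have h1 := hf u
    have h2 := hpf u
    have h3 := (hN.pos u).le
    have h4 : m u * g u * g u = m u * f u * f u + m u * (2 * f u * pw w m f u + pw w m f u ^ 2) := by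
      rw [hg]; ring
    rw [h4]
    have : 0 ≤ m u * (2 * f u * pw w m f u + pw w m f u ^ 2) := by positivity
    linarith
  have hgg2 : ip m g g ≤ 4 * ip m f f := by
    have h1 := pw_contr hN f
    have h2 : ip m g g ≤ 2 * ip m f f + 2 * ip m (pw w m f) (pw w m f) := by
      unfold ip
      rw [mul_sum, mul_sum, ← sum_add_distrib]
      refine sum_le_sum fun u _ => ?_
      have h3 := (hN.pos u).le
      have h4 : 2 * (m u * f u * f u) + 2 * (m u * pw w m f u * pw w m f u) - m u * g u * g u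
          = m u * (f u - pw w m f u) ^ 2 := by
        rw [hg]; ring
      have : 0 ≤ m u * (f u - pw w m f u) ^ 2 := by positivity
      linarith
    linarith
  have hgg0 : 0 < ip m g g := lt_of_lt_of_le hff hgg1
  -- the form
  have hform : κ / 2 * ip m g g < ∑ u, ∑ v, w u v * (g v * g u) := by
    rw [← ip_pw hN.pos]
    have hlin : ip m (pw w m g) g = ip m (pw w m f) f + ip m (pw w m f) (pw w m f)
        + (ip m (pw w m (pw w m f)) f + ip m (pw w m (pw w m f)) (pw w m f)) := by
      rw [ip_pw hN.pos, ip_pw hN.pos, ip_pw hN.pos, ip_pw hN.pos, ip_pw hN.pos,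
        ← sum_add_distrib, ← sum_add_distrib, ← sum_add_distrib]
      refine sum_congr rfl fun u _ => ?_
      rw [← sum_add_distrib, ← sum_add_distrib, ← sum_add_distrib]
      refine sum_congr rfl fun v _ => ?_
      rw [hg]; ring
    have h1 : 0 ≤ ip m (pw w m f) f := hnn _ _ hpf hf
    have h2 : 0 ≤ ip m (pw w m (pw w m f)) (pw w m f) := hnn _ _ (pw_nonneg hN hpf) hpf
    have h3 : ip m (pw w m (pw w m f)) f = ip m (pw w m f) (pw w m f) := pw_sym hN _ _
    rw [hlin, h3]
    nlinarith
  -- layers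
  set k2 : ℝ := κ / 2 with hk2
  have hk20 : 0 < k2 := by positivity
  set t0 : ℝ := k2 ^ 2 * ip m g g / 8 with ht0
  have ht00 : 0 < t0 := by positivity
  have hlay := layer (fun p : W × W => w p.1 p.2) (fun p => min (g p.1) (g p.2)) m g
    (κ ^ 2 / 16) t0 ht00.le (by
      intro t ht
      have htpos : 0 < t := lt_of_lt_of_le ht00 ht
      have e1 : ∑ p : W × W, w p.1 p.2 * (if t < min (g p.1) (g p.2) then 1 else 0)
          = ∑ u ∈ univ.filter (fun u => t < g u), ∑ v ∈ univ.filter (fun u => t < g u), w u v := by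
        rw [Fintype.sum_prod_type, sum_filter]
        refine sum_congr rfl fun u _ => ?_
        rw [sum_filter]
        by_cases hu : t < g u
        · rw [if_pos hu]
          refine sum_congr rfl fun v _ => ?_
          by_cases hv : t < g v
          · rw [if_pos (lt_min hu hv), if_pos hv, mul_one]
          · rw [if_neg (fun h => hv (lt_of_lt_of_le h (min_le_right _ _))), if_neg hv, mul_zero]
        · rw [if_neg hu]
          refine sum_eq_zero fun v _ => ?_
          rw [if_neg (fun h => hu (lt_of_lt_of_le h (min_le_left _ _))), mul_zero]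
      have e2 : ∑ u, m u * (if t < g u then 1 else 0) = vol m (univ.filter fun u => t < g u) := by
        unfold vol
        rw [sum_filter]
        refine sum_congr rfl fun u _ => ?_
        split_ifs <;> simp
      rw [e1, e2]
      apply hNB
      -- the level set is small
      have h1 : t * vol m (univ.filter fun u => t < g u) ≤ 2 := by
        refine le_trans ?_ hgs
        unfold vol
        rw [mul_sum, sum_filter]
        refine sum_le_sum fun u _ => ?_
        split_ifs with h
        · rw [mul_comm]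
          exact mul_le_mul_of_nonneg_left h.le (hN.pos u).le
        · exact mul_nonneg (hN.pos u).le (hg0 u)
      have h2 : vol m (univ.filter fun u => t < g u) ≤ 2 / t := by
        rw [le_div_iff₀ htpos]; linarith
      refine h2.trans ?_
      have h3 : 2 / t ≤ 2 / t0 := div_le_div_of_nonneg_left (by norm_num) ht00 ht
      refine h3.trans ?_
      rw [div_le_iff₀ ht00, ht0, hk2]
      have h4 : 64 ≤ ip m g g * (κ ^ 2 * μ) := by
        rw [div_le_iff₀ (by positivity)] at hbig
        nlinarith [mul_le_mul_of_nonneg_right hgg1 (by positivity : (0 : ℝ) ≤ κ ^ 2 * μ)]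
      nlinarith)
  -- assemble
  have hmin : ∑ p : W × W, w p.1 p.2 * min (g p.1) (g p.2) ^ 2
      ≤ κ ^ 2 / 16 * ip m g g + 2 * t0 := by
    have h1 : ∑ p : W × W, w p.1 p.2 * min (g p.1) (g p.2) ^ 2
        ≤ ∑ p : W × W, w p.1 p.2 * (max (min (g p.1) (g p.2)) t0 ^ 2 - t0 ^ 2)
          + ∑ p : W × W, w p.1 p.2 * (t0 * g p.1) := by
      rw [← sum_add_distrib]
      refine sum_le_sum fun p _ => ?_
      rw [← mul_add]
      apply mul_le_mul_of_nonneg_left _ (hN.nonneg _ _)
      have hx : 0 ≤ min (g p.1) (g p.2) := le_min (hg0 _) (hg0 _)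
      have hx2 : min (g p.1) (g p.2) ≤ g p.1 := min_le_left _ _
      set x := min (g p.1) (g p.2)
      rcases le_total x t0 with h | h
      · rw [max_eq_right h]
        nlinarith
      · rw [max_eq_left h]
        nlinarith
    have h2 : ∑ j, m j * (max (g j) t0 ^ 2 - t0 ^ 2) ≤ ip m g g := by
      unfold ip
      refine sum_le_sum fun u _ => ?_
      have h3 := (hN.pos u).le
      have h4 : max (g u) t0 ^ 2 - t0 ^ 2 ≤ g u ^ 2 := by
        rcases le_total (g u) t0 with h | h
        · rw [max_eq_right h]; nlinarith [hg0 u]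
        · rw [max_eq_left h]; nlinarith
      nlinarith
    have h3 : ∑ p : W × W, w p.1 p.2 * (t0 * g p.1) ≤ t0 * 2 := by
      rw [Fintype.sum_prod_type]
      have e : ∑ u, ∑ v, w u v * (t0 * g u) = t0 * ∑ u, (∑ v, w u v) * g u := by
        rw [mul_sum]
        refine sum_congr rfl fun u _ => ?_
        rw [sum_mul, mul_sum]
        exact sum_congr rfl fun v _ => by ring
      rw [e]
      apply mul_le_mul_of_nonneg_left _ ht00.le
      exact (sum_le_sum fun u _ => mul_le_mul_of_nonneg_right (hN.deg u) (hg0 u)).trans hgs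
    have h4 := mul_le_mul_of_nonneg_left h2 (by positivity : (0 : ℝ) ≤ κ ^ 2 / 16)
    linarith
  have hmax : ∑ p : W × W, w p.1 p.2 * max (g p.1) (g p.2) ^ 2 ≤ 2 * ip m g g := by
    have h1 : ∑ p : W × W, w p.1 p.2 * max (g p.1) (g p.2) ^ 2
        ≤ ∑ u, ∑ v, w u v * g v ^ 2 + ∑ u, ∑ v, w u v * g u ^ 2 := by
      rw [Fintype.sum_prod_type, ← sum_add_distrib]
      refine sum_le_sum fun u _ => ?_
      rw [← sum_add_distrib]
      refine sum_le_sum fun v _ => ?_
      rw [← mul_add]
      apply mul_le_mul_of_nonneg_left _ (hN.nonneg _ _)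
      rcases le_total (g u) (g v) with h | h
      · simp only [max_eq_right h]; nlinarith [sq_nonneg (g u)]
      · simp only [max_eq_left h]; nlinarith [sq_nonneg (g v)]
    have h2 := sum_w_sq hN g
    have h3 : ∑ u, ∑ v, w u v * g u ^ 2 = ∑ u, ∑ v, w u v * g v ^ 2 := by
      rw [sum_comm]
      refine sum_congr rfl fun u _ => sum_congr rfl fun v _ => ?_
      rw [hN.symm v u]
    linarith
  have hprod : ∑ u, ∑ v, w u v * (g v * g u)
      ≤ 1 / k2 * ∑ p : W × W, w p.1 p.2 * min (g p.1) (g p.2) ^ 2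
        + k2 / 4 * ∑ p : W × W, w p.1 p.2 * max (g p.1) (g p.2) ^ 2 := by
    rw [mul_sum, mul_sum, ← sum_add_distrib, Fintype.sum_prod_type]
    refine sum_le_sum fun u _ => sum_le_sum fun v _ => ?_
    have h1 : g v * g u = min (g u) (g v) * max (g u) (g v) := by
      rw [min_mul_max]; ring
    rw [h1]
    have h2 : min (g u) (g v) * max (g u) (g v)
        ≤ 1 / k2 * min (g u) (g v) ^ 2 + k2 / 4 * max (g u) (g v) ^ 2 := by
      set x := min (g u) (g v)
      set y := max (g u) (g v)
      have h3 : 1 / k2 * x ^ 2 + k2 / 4 * y ^ 2 - x * y = 1 / k2 * (x - k2 / 2 * y) ^ 2 := by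
        field_simp
        ring
      have h4 : 0 ≤ 1 / k2 * (x - k2 / 2 * y) ^ 2 := by positivity
      linarith
    have h5 := mul_le_mul_of_nonneg_left h2 (hN.nonneg u v)
    calc w u v * (min (g u) (g v) * max (g u) (g v)) ≤ _ := h5
      _ = _ := by ring
  have hfin : ∑ u, ∑ v, w u v * (g v * g u) ≤ k2 * ip m g g := by
    refine hprod.trans ?_
    have h1 : 1 / k2 * ∑ p : W × W, w p.1 p.2 * min (g p.1) (g p.2) ^ 2
        ≤ 1 / k2 * (κ ^ 2 / 16 * ip m g g + 2 * t0) :=
      mul_le_mul_of_nonneg_left hmin (by positivity)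
    have h2 : k2 / 4 * ∑ p : W × W, w p.1 p.2 * max (g p.1) (g p.2) ^ 2
        ≤ k2 / 4 * (2 * ip m g g) :=
      mul_le_mul_of_nonneg_left hmax (by positivity)
    have h3 : 1 / k2 * (κ ^ 2 / 16 * ip m g g + 2 * t0) + k2 / 4 * (2 * ip m g g)
        = k2 * ip m g g := by
      have e : κ = 2 * k2 := by rw [hk2]; ring
      rw [ht0, e]
      field_simp
      ring
    linarith
  linarith

end

end Pool.Agent.W906.SE
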