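import Pool.Agent.W906.SE.Walk

/-!
Heat kernel decay and global correlation.
-/

set_option autoImplicit false

namespace Pool.Agent.W906.SE

open Finset Pool.Agent.H647R3.UG

section

variable {W : Type} [Fintype W] {w : W → W → ℝ} {m : W → ℝ}

theorem ip_dl [DecidableEq W] (hm : ∀ u, 0 < m u) (v : W) (h : W → ℝ) :
    ip m (dl m v) h = h v := by
  unfold ip dl
  rw [sum_eq_single v]
  · rw [if_pos rfl]
    have := (hm v).ne'
    field_simp
  · intro u _ hu
    rw [if_neg hu]; ring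
  · intro h; exact absurd (mem_univ v) h

theorem pw_iter_sym (hN : IsNet w m) (k : ℕ) (f g : W → ℝ) :
    ip m ((pw w m)^[k] f) g = ip m f ((pw w m)^[k] g) := by
  induction k generalizing f g with
  | zero => rfl
  | succ k ih =>
    rw [Function.iterate_succ_apply, Function.iterate_succ_apply', ih, pw_sym hN]

theorem heat [DecidableEq W] (hN : IsNet w m) (κ μ : ℝ) (hκ : 0 < κ) (hκ1 : κ ≤ 1) (hμ : 0 < μ)
    (hNB : ∀ S : Finset W, vol m S ≤ μ → ∑ u ∈ S, ∑ v ∈ S, w u v ≤ κ ^ 2 / 16 * vol m S)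
    (v : W) (k : ℕ) :
    (∀ u, 0 ≤ (pw w m)^[k] (dl m v) u) ∧ ∑ u, m u * (pw w m)^[k] (dl m v) u ≤ 1 ∧
      ip m ((pw w m)^[k] (dl m v)) ((pw w m)^[k] (dl m v))
        ≤ max (64 / (κ ^ 2 * μ)) (κ ^ k / m v) := by
  induction k with
  | zero =>
    refine ⟨?_, ?_, ?_⟩
    · intro u
      simp only [Function.iterate_zero, id_eq, dl]
      split_ifs
      · exact div_nonneg zero_le_one (hN.pos v).le
      · exact le_rfl
    · simp only [Function.iterate_zero, id_eq, dl]
      rw [sum_eq_single v]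
      · rw [if_pos rfl, mul_one_div_cancel (hN.pos v).ne']
      · intro u _ hu; rw [if_neg hu, mul_zero]
      · intro h; exact absurd (mem_univ v) h
    · simp only [Function.iterate_zero, id_eq]
      rw [ip_dl hN.pos]
      apply le_max_of_le_right
      simp [dl]
  | succ k ih =>
    obtain ⟨h1, h2, h3⟩ := ih
    rw [Function.iterate_succ_apply']
    refine ⟨pw_nonneg hN h1, (pw_sum hN h1).trans h2, ?_⟩
    set F := (pw w m)^[k] (dl m v)
    rcases lt_or_ge (ip m F F) (64 / (κ ^ 2 * μ)) with h | h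
    · exact le_max_of_le_left ((pw_contr hN F).trans h.le)
    · have h4 := local_cheeger hN κ μ hκ hμ hNB F h1 h2 h
      have h5 : 0 < 64 / (κ ^ 2 * μ) := by positivity
      have h6 : 0 < κ ^ k / m v := div_pos (pow_pos hκ k) (hN.pos v)
      have h7 : κ * ip m F F ≤ κ * max (64 / (κ ^ 2 * μ)) (κ ^ k / m v) :=
        mul_le_mul_of_nonneg_left h3 hκ.le
      refine h4.trans (h7.trans ?_)
      rcases le_total (64 / (κ ^ 2 * μ)) (κ ^ k / m v) with h8 | h8
      · rw [max_eq_right h8]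
        apply le_max_of_le_right
        rw [pow_succ]
        apply le_of_eq
        ring
      · rw [max_eq_left h8]
        apply le_max_of_le_left
        nlinarith

end

theorem cs2 {J W : Type} [Fintype J] [Fintype W] (m : W → ℝ) (hm : ∀ u, 0 ≤ m u)
    (a b : J → W → ℝ) :
    (∑ j, ip m (a j) (b j)) ^ 2 ≤ (∑ j, ip m (a j) (a j)) * ∑ j, ip m (b j) (b j) := by
  have h := Finset.sum_sq_le_sum_mul_sum_of_sq_le_mul (univ : Finset (J × W))
    (r := fun p => m p.2 * a p.1 p.2 * b p.1 p.2)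
    (f := fun p => m p.2 * a p.1 p.2 * a p.1 p.2)
    (g := fun p => m p.2 * b p.1 p.2 * b p.1 p.2)
    (fun p _ => by
      have := hm p.2
      have e : m p.2 * a p.1 p.2 * a p.1 p.2 = m p.2 * (a p.1 p.2) ^ 2 := by ring
      rw [e]; positivity)
    (fun p _ => by
      have := hm p.2
      have e : m p.2 * b p.1 p.2 * b p.1 p.2 = m p.2 * (b p.1 p.2) ^ 2 := by ring
      rw [e]; positivity)
    (fun p _ => by apply le_of_eq; ring)
  simp only [Fintype.sum_prod_type] at h
  exact h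

/-- global correlation from local correlation, on a graph without small sets of noticeable
non-expansion -/
theorem global_corr {W J : Type} [Fintype W] [DecidableEq W] [Fintype J] {w : W → W → ℝ}
    {m : W → ℝ} (hN : IsNet w m) (κ μ : ℝ) (hκ : 0 < κ) (hκ1 : κ ≤ 1) (hμ : 0 < μ)
    (hNB : ∀ S : Finset W, vol m S ≤ μ → ∑ u ∈ S, ∑ v ∈ S, w u v ≤ κ ^ 2 / 16 * vol m S)
    (U : J → W → ℝ) (c : ℝ) (hc : 0 < c) (hM : 0 < vol m univ)
    (h0 : ∑ j, ip m (U j) (U j) ≤ vol m univ)
    (h1 : c * vol m univ ≤ ∑ j, ip m (U j) (pw w m (U j)))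
    (i : ℕ) (hi : ∀ v, κ ^ (2 ^ i) ≤ 64 / (κ ^ 2 * μ) * m v) :
    c ^ (2 * 2 ^ i) * (κ ^ 2 * μ / 64) * vol m univ
      ≤ ∑ u, ∑ v, m u * m v * (∑ j, U j u * U j v) ^ 2 := by
  set M := vol m univ with hMdef
  set T : ℕ → ℝ := fun k => ∑ j, ip m (U j) ((pw w m)^[k] (U j)) with hT
  have hm0 : ∀ u, 0 ≤ m u := fun u => (hN.pos u).le
  -- doubling
  have hdb : ∀ k, T k ^ 2 ≤ M * T (2 * k) := by
    intro k
    have h2 := cs2 m hm0 U (fun j => (pw w m)^[k] (U j))
    have h3 : ∑ j, ip m ((pw w m)^[k] (U j)) ((pw w m)^[k] (U j)) = T (2 * k) := by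
      rw [hT]
      refine sum_congr rfl fun j _ => ?_
      rw [pw_iter_sym hN, ← Function.iterate_add_apply, two_mul]
    rw [h3] at h2
    have h4 : 0 ≤ T (2 * k) := by
      rw [← h3]
      exact sum_nonneg fun j _ => ip_nonneg hN _
    exact h2.trans (mul_le_mul_of_nonneg_right h0 h4)
  have hTi : ∀ i : ℕ, c ^ (2 ^ i) * M ≤ T (2 ^ i) := by
    intro i
    induction i with
    | zero =>
      simpa [hT] using h1
    | succ i ih =>
      have h2 := hdb (2 ^ i)
      have h3 : (c ^ (2 ^ i) * M) ^ 2 ≤ T (2 ^ i) ^ 2 :=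
        pow_le_pow_left₀ (by positivity) ih 2
      have h4 : M * (c ^ (2 ^ (i + 1)) * M) ≤ M * T (2 * 2 ^ i) := by
        refine le_trans (le_of_eq ?_) (h3.trans h2)
        have : (2 : ℕ) ^ (i + 1) = 2 ^ i * 2 := pow_succ _ _
        rw [this, pow_mul]
        ring
      have h5 := le_of_mul_le_mul_left h4 hM
      have : (2 : ℕ) ^ (i + 1) = 2 * 2 ^ i := by rw [pow_succ]; ring
      rw [this] at h5 ⊢
      exact h5
  -- the kernel
  set k := 2 ^ i with hk
  set G : W → W → ℝ := fun v => (pw w m)^[k] (dl m v) with hG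
  have hker : T k = ∑ v, ∑ u, m v * m u * (G v u * ∑ j, U j u * U j v) := by
    have e1 : ∀ j, ip m (U j) ((pw w m)^[k] (U j))
        = ∑ v, ∑ u, m v * m u * (G v u * (U j u * U j v)) := by
      intro j
      have e2 : ∀ v, (pw w m)^[k] (U j) v = ∑ u, m u * G v u * U j u := by
        intro v
        have e3 := ip_dl hN.pos v ((pw w m)^[k] (U j))
        rw [← e3, ← pw_iter_sym hN]
        rfl
      unfold ip
      refine sum_congr rfl fun v _ => ?_
      rw [e2 v, mul_sum]
      exact sum_congr rfl fun u _ => by ring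
    rw [hT]
    simp only [e1]
    rw [sum_comm]
    refine sum_congr rfl fun v _ => ?_
    rw [sum_comm]
    refine sum_congr rfl fun u _ => ?_
    rw [mul_sum, mul_sum]
  have hcs : T k ^ 2 ≤ (∑ v, ∑ u, m v * m u * G v u ^ 2)
      * ∑ v, ∑ u, m v * m u * (∑ j, U j u * U j v) ^ 2 := by
    rw [hker]
    have h := Finset.sum_sq_le_sum_mul_sum_of_sq_le_mul (univ : Finset (W × W))
      (r := fun p => m p.1 * m p.2 * (G p.1 p.2 * ∑ j, U j p.2 * U j p.1))
      (f := fun p => m p.1 * m p.2 * G p.1 p.2 ^ 2)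
      (g := fun p => m p.1 * m p.2 * (∑ j, U j p.2 * U j p.1) ^ 2)
      (fun p _ => by
        have := hm0 p.1
        have := hm0 p.2
        positivity)
      (fun p _ => by
        have := hm0 p.1
        have := hm0 p.2
        positivity)
      (fun p _ => by apply le_of_eq; ring)
    simp only [Fintype.sum_prod_type] at h
    exact h
  have htr : ∑ v, ∑ u, m v * m u * G v u ^ 2 ≤ M * (64 / (κ ^ 2 * μ)) := by
    have h2 : ∀ v, ∑ u, m v * m u * G v u ^ 2 ≤ m v * (64 / (κ ^ 2 * μ)) := by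
      intro v
      have h3 := (heat hN κ μ hκ hκ1 hμ hNB v k).2.2
      have h4 : κ ^ k / m v ≤ 64 / (κ ^ 2 * μ) := by
        rw [div_le_iff₀ (hN.pos v)]
        exact hi v
      rw [max_eq_left h4] at h3
      have e : ∑ u, m v * m u * G v u ^ 2 = m v * ip m (G v) (G v) := by
        unfold ip
        rw [mul_sum]
        exact sum_congr rfl fun u _ => by ring
      rw [e]
      exact mul_le_mul_of_nonneg_left h3 (hm0 v)
    refine (sum_le_sum fun v _ => h2 v).trans (le_of_eq ?_)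
    rw [← sum_mul]
    rfl
  have hGC0 : 0 ≤ ∑ v, ∑ u, m v * m u * (∑ j, U j u * U j v) ^ 2 := by
    refine sum_nonneg fun v _ => sum_nonneg fun u _ => ?_
    have := hm0 v
    have := hm0 u
    positivity
  have hfin : (c ^ k * M) ^ 2 ≤ M * (64 / (κ ^ 2 * μ))
      * ∑ v, ∑ u, m v * m u * (∑ j, U j u * U j v) ^ 2 := by
    refine (pow_le_pow_left₀ (by positivity) (hTi i) 2).trans (hcs.trans ?_)
    exact mul_le_mul_of_nonneg_right htr hGC0
  have hsw : ∑ u, ∑ v, m u * m v * (∑ j, U j u * U j v) ^ 2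
      = ∑ v, ∑ u, m v * m u * (∑ j, U j u * U j v) ^ 2 := by
    rw [sum_comm]
    refine sum_congr rfl fun u _ => sum_congr rfl fun v _ => ?_
    ring
  rw [hsw]
  set X := ∑ v, ∑ u, m v * m u * (∑ j, U j u * U j v) ^ 2
  have h5 : c ^ (2 * k) * (κ ^ 2 * μ / 64) * M
      = (c ^ k * M) ^ 2 * ((κ ^ 2 * μ / 64) / M) := by
    rw [two_mul, pow_add]
    field_simp
  rw [h5]
  have h6 : 0 ≤ (κ ^ 2 * μ / 64) / M := by positivity
  refine (mul_le_mul_of_nonneg_right hfin h6).trans (le_of_eq ?_)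
  field_simp

end Pool.Agent.W906.SE
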